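import Pool.Agent.Helper23_Refl.StmtC2

/-!
# Basic rules for the kernel functions
-/

namespace Pool.Agent.Refl.H18

open Matrix

theorem fc_eq {α : Type} (n : ℕ) (f : ℕ → α) : K.fc n f = f n := by
  cases n <;> rfl

theorem ands_eq (a b : Bool) : K.ands a b = (a && b) := by
  cases a <;> cases b <;> rfl

theorem ands_true {a b : Bool} : K.ands a b = true ↔ a = true ∧ b = true := by
  cases a <;> cases b <;> simp [K.ands]

theorem notb_true {a : Bool} : K.notb a = true ↔ a = false := by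
  cases a <;> simp [K.notb]

theorem beq_true {a b : ℕ} : Nat.beq a b = true ↔ a = b := by
  exact ⟨Nat.eq_of_beq_eq_true, fun h => by subst h; exact Nat.beq_refl a⟩

theorem beq_false {a b : ℕ} : Nat.beq a b = false ↔ a ≠ b := by
  rw [← Bool.not_eq_true, beq_true]

theorem ble_true {a b : ℕ} : Nat.ble a b = true ↔ a ≤ b := by
  exact ⟨Nat.le_of_ble_eq_true, Nat.ble_eq_true_of_le⟩

theorem blt_true {a b : ℕ} : Nat.blt a b = true ↔ a < b := by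
  exact ble_true

theorem okb_eq_zero {b : Bool} {s : ℕ} : K.okb b s = 0 ↔ b = false := by
  cases b <;> simp [K.okb]

theorem okb_ne_zero {b : Bool} {s : ℕ} : K.okb b s ≠ 0 ↔ b = true := by
  cases b <;> simp [K.okb]

theorem boolrec_ne {b : Bool} {x : ℕ} (h : (Bool.rec 0 x b : ℕ) ≠ 0) : b = true ∧ x ≠ 0 := by
  cases b
  · exact absurd rfl h
  · exact ⟨rfl, h⟩

theorem sel_0 (a b c d : ℕ) : K.sel 0 a b c d = a := rfl
theorem sel_1 (a b c d : ℕ) : K.sel 1 a b c d = b := rfl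
theorem sel_2 (a b c d : ℕ) : K.sel 2 a b c d = c := rfl
theorem sel_3 (a b c d : ℕ) : K.sel 3 a b c d = d := rfl

/-- `sel` of an index below four -/
theorem sel_fin (i : ℕ) (h : i < 4) (a b c d : ℕ) :
    ∃ j : Fin 4, (j : ℕ) = i ∧ K.sel i a b c d = ![a, b, c, d] j := by
  refine ⟨⟨i, h⟩, rfl, ?_⟩
  interval_cases i <;> rfl

/-- reading four numbers -/
theorem rd4_eq (w s : ℕ) : ∃ z0 z1 z2 z3 s' : ℕ, z0 < 2 ^ w ∧ z1 < 2 ^ w ∧ z2 < 2 ^ w ∧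
    z3 < 2 ^ w ∧ ∀ f, K.rd4 w s f = f z0 z1 z2 z3 s' := by
  have hW : 0 < 2 ^ w := Nat.pos_of_ne_zero (by positivity)
  have hW4 : 0 < (2 ^ w) ^ 4 := Nat.pos_of_ne_zero (by positivity)
  refine ⟨(s % (2 ^ w) ^ 4) % 2 ^ w, (s % (2 ^ w) ^ 4) / 2 ^ w % 2 ^ w,
    (s % (2 ^ w) ^ 4) / (2 ^ w) ^ 2 % 2 ^ w, (s % (2 ^ w) ^ 4) / (2 ^ w) ^ 3, s / (2 ^ w) ^ 4,
    Nat.mod_lt _ hW, Nat.mod_lt _ hW, Nat.mod_lt _ hW, ?_, ?_⟩
  · apply Nat.div_lt_of_lt_mul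
    have := Nat.mod_lt s hW4
    calc s % (2 ^ w) ^ 4 < (2 ^ w) ^ 4 := this
      _ = (2 ^ w) ^ 3 * 2 ^ w := by ring
  · intro f
    unfold K.rd4
    rw [fc_eq, fc_eq, fc_eq]
    rfl

end Pool.Agent.Refl.H18
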