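import Pool.Agent.Helper23_Refl.StmtC5
import Pool.Agent.Helper84_Refl.Base
import Pool.Agent.Helper18_Refl.KBase

/-!
# Module ALLJ of the squad REFL (MP_c70e36_gt)
-/

set_option autoImplicit false
set_option linter.all false

namespace Pool.Agent.Refl.H18C

open Matrix H18

theorem sq_ne {f g : ℕ → ℕ} {s : ℕ} (h : K.sq f g s ≠ 0) : f s ≠ 0 ∧ ∃ s', g s' ≠ 0 := by
  unfold K.sq at h
  cases hf : f s with
  | zero => rw [hf] at h; exact absurd rfl h
  | succ n =>
    rw [hf] at h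
    exact ⟨by simp, n, h⟩

theorem natrec_ne {n : ℕ} {g : ℕ → ℕ} (h : (Nat.rec 0 (fun s' _ => g s') n : ℕ) ≠ 0) :
    n ≠ 0 ∧ ∃ s', g s' ≠ 0 := by
  cases n with
  | zero => exact absurd rfl h
  | succ m => exact ⟨by simp, m, h⟩

theorem lenG_eq (l : List K.Gp) : K.lenG l = l.length := by
  unfold K.lenG
  induction l with
  | nil => rfl
  | cons a l ih => simpa using ih

/-- the hypotheses on the data for one row -/
structure RowH (A : K.I10) (F : List K.I4) (nw : ℕ) : Prop where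
  lat : Lat (matI A)
  root : ∀ e ∈ F, IsRoot (matI A) (vI e)
  cham : 0 < nw → ∃ (n : ℕ) (f : Fin n → Z4) (o : R4), Cham (matI A) n f o ∧
    ∀ i < nw, ∃ (v : K.I4) (a j k : Fin n), F[i]? = some v ∧ f a = vI v ∧
      IsV (matI A) f a j k

theorem mkOC_ok (hM : MkGStmt) {A : K.I10} {F : List K.I4} {ta tn p nw : ℕ}
    (hR : RowH A F nw) (hp : p.Prime) {f : K.OC → ℕ → ℕ} {s : ℕ}
    (h : K.mkOC A F ta tn p nw f s ≠ 0) :
    ∃ (O : K.OC) (s' : ℕ), OCok O F ∧ O.p = p ∧ O.A = A ∧ O.ta = ta ∧ O.tn = tn ∧ f O s' ≠ 0 := by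
  unfold K.mkOC at h
  rw [fc_eq] at h
  obtain ⟨h1, h2⟩ := boolrec_ne h
  rw [ands_true, ands_true] at h1
  have hp2 : 2 ≤ p := ble_true.1 h1.1.1
  have hp127 : p ≤ 127 := ble_true.1 h1.1.2
  have hM11 : 11 ≤ s % 128 := ble_true.1 h1.2
  have hM127 : s % 128 ≤ 127 := by omega
  have h3 := hM A F p (s % 128) (fun L => f (K.OC.mk A p (s % 128) L (K.lenG L) ta tn nw)
    (Nat.div s 128)) hR.root (by omega) hp127 (by omega) hM127
  have h4 : f (K.OC.mk A p (s % 128) (F.map fun e => gpZ p (s % 128) (rm (matI A) (vI e)))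
      (K.lenG (F.map fun e => gpZ p (s % 128) (rm (matI A) (vI e)))) ta tn nw)
      (Nat.div s 128) ≠ 0 := by
    rw [← h3]
    exact h2
  refine ⟨_, _, ?_, rfl, rfl, rfl, rfl, h4⟩
  exact
    { lat := hR.lat
      pr := hp
      ple := hp127
      mge := hM11
      mle := hM127
      hL := rfl
      hlen := by
        show K.lenG _ = _
        rw [lenG_eq, List.length_map]
      root := hR.root
      cham := hR.cham }

theorem clos_ok (hM : MkGStmt) (hI : CloIStmt) (hII : CloIIStmt) {A : K.I10} {F : List K.I4}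
    {ta tn p nw : ℕ} (hR : RowH A F nw) (hp : p.Prime) {s : ℕ}
    (h : K.clos A F ta tn p nw s ≠ 0) :
    CI p (matI A) (tlist ta tn) ∧ CII p (matI A) (tlist ta tn) := by
  unfold K.clos at h
  obtain ⟨O, s', hO, hp', hA, hta, htn, h1⟩ := mkOC_ok hM hR hp h
  obtain ⟨h2, s'', h3⟩ := sq_ne h1
  have e1 := hI O F _ hO h2
  have e2 := hII O F _ hO h3
  rw [hp', hA, hta, htn] at e1 e2
  exact ⟨e1, e2⟩

theorem closII_ok (hM : MkGStmt) (hII : CloIIStmt) {A : K.I10} {F : List K.I4}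
    {ta tn p nw : ℕ} (hR : RowH A F nw) (hp : p.Prime) {s : ℕ}
    (h : K.mkOC A F ta tn p nw (fun O s => K.closII O s) s ≠ 0) :
    CII p (matI A) (tlist ta tn) := by
  obtain ⟨O, s', hO, hp', hA, hta, htn, h1⟩ := mkOC_ok hM hR hp h
  have e2 := hII O F _ hO h1
  rw [hp', hA, hta, htn] at e2
  exact e2

theorem closL_ok (hM : MkGStmt) (hII : CloIIStmt) {A : K.I10} {F : List K.I4}
    {ta tn nw : ℕ} (hR : RowH A F nw) (ml : List ℕ) :
    ∀ s, K.closL A F ta tn nw ml s ≠ 0 → ∀ x ∈ ml, (x / 16).Prime → 7 < x / 16 →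
      CII (x / 16) (matI A) (tlist ta tn) := by
  induction ml with
  | nil => intro s h x hx; simp at hx
  | cons y ml ih =>
    intro s h x hx hp h7
    have h' : (Nat.rec 0 (fun s' _ => K.closL A F ta tn nw ml s')
      (K.fc (Nat.div y 16) fun p => Bool.rec
        (K.mkOC A F ta tn p nw (fun O s => K.closII O s) s) (Nat.succ s) (Nat.ble p 7)) : ℕ) ≠ 0 := h
    obtain ⟨h1, s', h2⟩ := natrec_ne h'
    rw [fc_eq] at h1
    rcases List.mem_cons.1 hx with rfl | hx'
    · have hb : Nat.ble (Nat.div x 16) 7 = false := by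
        rw [← Bool.not_eq_true, ble_true]
        exact not_le.2 h7
      rw [hb] at h1
      exact closII_ok hM hII hR hp h1
    · exact ih s' h2 x hx' hp h7

theorem prl_mem (hPr : PrimeStmt) (ml : List ℕ) : ∀ p : ℕ, p.Prime → K.prl ml ≠ 0 →
    p ∣ K.prl ml → ∃ x ∈ ml, p = x / 16 := by
  induction ml with
  | nil =>
    intro p hp _ h2
    have h3 : p ∣ 1 := h2
    exact absurd (Nat.dvd_one.1 h3) hp.one_lt.ne'
  | cons y ml ih =>
    intro p hp h1 h2
    have e : K.prl (y :: ml) = (Bool.rec 0 (Nat.mul (Nat.pow (Nat.div y 16) (Nat.mod y 16))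
      (K.prl ml)) (K.isPrime (Nat.div y 16)) : ℕ) := rfl
    rw [e] at h1
    obtain ⟨h3, h4⟩ := boolrec_ne h1
    rw [e, h3] at h2
    have h2' : p ∣ (y / 16) ^ (y % 16) * K.prl ml := h2
    have h4' : (y / 16) ^ (y % 16) * K.prl ml ≠ 0 := h4
    rcases (Nat.Prime.dvd_mul hp).1 h2' with h5 | h5
    · have h6 := hp.dvd_of_dvd_pow h5
      have h7 := (hPr (y / 16) h3).1
      exact ⟨y, by simp, (Nat.prime_dvd_prime_iff_eq hp h7).1 h6⟩
    · obtain ⟨x, hx, hpx⟩ := ih p hp (right_ne_zero_of_mul h4') h5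
      exact ⟨x, List.mem_cons_of_mem _ hx, hpx⟩

/-- no child of type II for a prime not dividing the determinant -/
theorem no_childII {p : ℕ} (hp : p.Prime) {R : M4} (hR : ¬ (p : ℤ) ∣ R.det) (L : M4) :
    ¬ ChildII p R L := by
  rintro ⟨W, W', h1, h2, h3, h4, h5, h6⟩
  have hpz : Prime (p : ℤ) := Nat.prime_iff_prime_int.1 hp
  have h7 : ∀ i j, (p : ℤ) ∣ W i j := by
    intro i j
    have h8 : R.adjugate * (R * W) = R.det • W := by
      rw [← Matrix.mul_assoc, Matrix.adjugate_mul, Matrix.smul_mul, Matrix.one_mul]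
    have h9 : ∀ k, (p : ℤ) ∣ (R * W) k j := by
      intro k
      have := h5 (Pi.single j 1) k
      have e : R.mulVec (W.mulVec (Pi.single j 1)) k = (R * W) k j := by
        rw [Matrix.mulVec_mulVec, Matrix.mulVec_single_one]
        rfl
      rw [← e]
      exact this
    have h10 : (p : ℤ) ∣ (R.adjugate * (R * W)) i j := by
      rw [Matrix.mul_apply]
      exact Finset.dvd_sum fun k _ => Dvd.dvd.mul_left (h9 k) _
    rw [h8, Matrix.smul_apply, smul_eq_mul] at h10
    rcases hpz.dvd_or_dvd h10 with h | h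
    · exact absurd h hR
    · exact h
  choose V hV using h7
  have h8 : W = (p : ℤ) • (Matrix.of V) := by
    ext i j
    rw [Matrix.smul_apply, smul_eq_mul]
    exact hV i j
  rw [h8, Matrix.det_smul, Fintype.card_fin] at h3
  rw [Int.natAbs_mul, Int.natAbs_pow, Int.natAbs_natCast] at h3
  have h9 : 0 < p := hp.pos
  have h10 : p ^ 4 * (Matrix.of V).det.natAbs = p ^ 3 := h3
  have h11 : p * (Matrix.of V).det.natAbs = 1 := by
    have : p ^ 3 * (p * (Matrix.of V).det.natAbs) = p ^ 3 * 1 := by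
      rw [mul_one]
      calc p ^ 3 * (p * (Matrix.of V).det.natAbs) = p ^ 4 * (Matrix.of V).det.natAbs := by ring
        _ = p ^ 3 := h10
    exact Nat.eq_of_mul_eq_mul_left (by positivity) this
  have h12 := Nat.eq_one_of_mul_eq_one_right h11
  exact hp.one_lt.ne' h12

theorem rdl_ne {k : ℕ} : ∀ {f : List ℕ → ℕ → ℕ} {s : ℕ}, K.rdl k f s ≠ 0 →
    ∃ l s', f l s' ≠ 0 := by
  induction k with
  | zero => intro f s h; exact ⟨[], s, h⟩
  | succ k ih =>
    intro f s h
    have h' : (K.fc (Nat.add (Nat.mul 16 (Nat.mod s 4096)) (Nat.mod (Nat.div s 4096) 16)) fun x =>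
      K.fc (Nat.div s 65536) fun s => K.rdl k (fun l s => f (List.cons x l) s) s) ≠ 0 := h
    rw [fc_eq, fc_eq] at h'
    obtain ⟨l, s', h1⟩ := ih h'
    exact ⟨_, s', h1⟩

theorem allj (hLin : LinAStmt) (hPr : PrimeStmt) (hM : MkGStmt) (hI : CloIStmt)
    (hII : CloIIStmt) : AllJStmt := by
  intro A ta j F nw s hA hL hroot hch h
  have hR : RowH A F nw := ⟨hL, hroot, hch⟩
  unfold K.allJ at h
  obtain ⟨h1, s1, h⟩ := sq_ne h
  obtain ⟨h2, s2, h⟩ := sq_ne h
  obtain ⟨h3, s3, h⟩ := sq_ne h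
  obtain ⟨h4, s4, h5⟩ := sq_ne h
  unfold OrbC
  rw [← hA]
  have hblt : ∀ {a b : ℕ}, a < b → Nat.blt a b = true := fun h => blt_true.2 h
  refine ⟨clos_ok hM hI hII hR Nat.prime_two h1, ?_, ?_, ?_, ?_⟩
  · intro hj
    rw [hblt hj] at h2
    exact clos_ok hM hI hII hR Nat.prime_three h2
  · intro hj
    rw [hblt hj] at h3
    exact clos_ok hM hI hII hR Nat.prime_five h3
  · intro hj
    rw [hblt hj] at h4
    exact clos_ok hM hI hII hR (by norm_num) h4
  · intro hj p hp h7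
    rw [hblt hj] at h5
    obtain ⟨ml, s5, h6⟩ := rdl_ne h5
    obtain ⟨h8, h9⟩ := boolrec_ne h6
    have h10 : K.prl ml = (matI A).det.natAbs := by
      rw [← hLin.2.2.2.2.1 A]
      exact beq_true.1 h8
    by_cases hdvd : (p : ℤ) ∣ (matI A).det
    · have h11 : p ∣ K.prl ml := by
        rw [h10]
        exact Int.natCast_dvd.1 hdvd
      have h12 : K.prl ml ≠ 0 := by
        rw [h10]
        exact Int.natAbs_ne_zero.2 hL.det_ne
      obtain ⟨x, hx, rfl⟩ := prl_mem hPr ml p hp h12 h11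
      exact closL_ok hM hII hR ml _ h9 x hx hp h7
    · intro L _ _ hc
      exact absurd hc (no_childII hp hdvd L)

end Pool.Agent.Refl.H18C
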