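import Pool.Agent.Helper23_Refl.StmtA

/-!
Squad REFL (MP_c70e36_gt): modules AVOID and GEN.
-/

namespace Pool.Agent.Refl.H18

open Matrix Set

/-- AVOID -/
theorem avoid : AvoidStmt := by
  intro F x0 ε hε hF
  have hcont : ∀ n, Continuous fun x : R4 => ∑ i, F n i * x i := fun n => by fun_prop
  have hopen : ∀ n, IsOpen {x : R4 | ∑ i, F n i * x i ≠ 0} := fun n =>
    isOpen_ne.preimage (hcont n)
  have hpos : ∀ n, 0 < ∑ i, F n i * F n i := by
    intro n
    have h0 : ∀ i, 0 ≤ F n i * F n i := fun i => mul_self_nonneg _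
    rcases (Finset.sum_nonneg fun i (_ : i ∈ Finset.univ) => h0 i).lt_or_eq with h | h
    · exact h
    · exfalso
      apply hF n
      funext i
      have := (Finset.sum_eq_zero_iff_of_nonneg (fun i _ => h0 i)).1 h.symm i (Finset.mem_univ i)
      simpa using this
  have hdense : ∀ n, Dense {x : R4 | ∑ i, F n i * x i ≠ 0} := by
    intro n x
    rw [mem_closure_iff_seq_limit]
    by_cases hx : ∑ i, F n i * x i = 0
    · refine ⟨fun k i => x i + 1 / ((k : ℝ) + 1) * F n i, fun k => ?_, ?_⟩
      · have : ∑ i, F n i * (x i + 1 / ((k : ℝ) + 1) * F n i) =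
            1 / ((k : ℝ) + 1) * ∑ i, F n i * F n i := by
          have h1 : ∑ i, F n i * (x i + 1 / ((k : ℝ) + 1) * F n i) =
              ∑ i, F n i * x i + 1 / ((k : ℝ) + 1) * ∑ i, F n i * F n i := by
            rw [Finset.mul_sum, ← Finset.sum_add_distrib]
            exact Finset.sum_congr rfl fun i _ => by ring
          rw [h1, hx, zero_add]
        show ∑ i, F n i * (x i + 1 / ((k : ℝ) + 1) * F n i) ≠ 0
        rw [this]
        have h2 : (0 : ℝ) < (k : ℝ) + 1 := by positivity
        have h3 := hpos n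
        positivity
      · rw [tendsto_pi_nhds]
        intro i
        have h := (tendsto_one_div_add_atTop_nhds_zero_nat (𝕜 := ℝ)).mul_const (F n i)
        simpa using h.const_add (x i)
    · exact ⟨fun _ => x, fun _ => hx, tendsto_const_nhds⟩
  have hD := dense_iInter_of_isOpen_nat hopen hdense
  have hO : IsOpen (Metric.ball x0 ε) := Metric.isOpen_ball
  obtain ⟨x, hx, hx'⟩ := hD.inter_open_nonempty _ hO ⟨x0, Metric.mem_ball_self hε⟩
  refine ⟨x, fun i => ?_, fun n => ?_⟩
  · rw [mem_ball_iff_norm] at hx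
    exact (norm_le_pi_norm (x - x0) i).trans_lt hx
  · exact mem_iInter.1 hx' n

/-- GEN -/
theorem gen : GenStmt := by
  intro G hG x0 ε hx0 hε
  classical
  have hcont : Continuous fun x : R4 => br G x x := by
    unfold br
    fun_prop
  have hO : IsOpen {x : R4 | br G x x < 0} := isOpen_lt hcont continuous_const
  obtain ⟨δ, hδ, hδ'⟩ := Metric.isOpen_iff.1 hO x0 hx0
  -- enumeration of integer vectors
  obtain ⟨en, hen⟩ := exists_surjective_nat Z4
  let F : ℕ → R4 := fun n => if IsRoot G (en n) then
    (fun i => ∑ j, (G i j : ℝ) * (en n j : ℝ)) else fun _ => 1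
  have hF : ∀ n, F n ≠ 0 := by
    intro n h
    by_cases hr : IsRoot G (en n)
    · have h1 : ∀ i, ∑ j, (G i j : ℝ) * (en n j : ℝ) = 0 := by
        intro i
        have := congrFun h i
        simpa [F, hr] using this
      have h2 : ((bz G (en n) (en n) : ℤ) : ℝ) = 0 := by
        unfold bz
        push_cast
        refine Finset.sum_eq_zero fun i _ => ?_
        have : ∑ j, (en n i : ℝ) * (G i j : ℝ) * (en n j : ℝ) =
            (en n i : ℝ) * ∑ j, (G i j : ℝ) * (en n j : ℝ) := by
          rw [Finset.mul_sum]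
          exact Finset.sum_congr rfl fun j _ => by ring
        rw [this, h1 i, mul_zero]
      have h3 := hr.pos
      have h4 : bz G (en n) (en n) = 0 := by exact_mod_cast h2
      omega
    · have := congrFun h 0
      simp [F, hr] at this
  obtain ⟨O, hO1, hO2⟩ := avoid F x0 (min (δ / 2) ε) (by positivity) hF
  refine ⟨O, fun i => (hO1 i).trans_le (min_le_right _ _), ?_, ?_⟩
  · apply hδ'
    rw [mem_ball_iff_norm]
    refine lt_of_le_of_lt ((pi_norm_le_iff_of_nonneg (by positivity : (0 : ℝ) ≤ δ / 2)).2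
      fun i => ?_) (half_lt_self hδ)
    exact (hO1 i).le.trans (min_le_left _ _)
  · intro r hr
    obtain ⟨n, rfl⟩ := hen r
    have h := hO2 n
    intro h0
    apply h
    have h1 : br G O (up (en n)) = ∑ i, (∑ j, (G i j : ℝ) * (en n j : ℝ)) * O i := by
      unfold br up
      refine Finset.sum_congr rfl fun i _ => ?_
      rw [Finset.sum_mul]
      exact Finset.sum_congr rfl fun j _ => by ring
    rw [h1] at h0
    simpa [F, hr] using h0

end Pool.Agent.Refl.H18
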