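import Pool.Agent.Helper23_Refl.StmtC5

/-!
# Module FINL of the squad REFL (MP_c70e36_gt)
-/

set_option autoImplicit false
set_option linter.all false

namespace Pool.Agent.Refl.H18C

open Matrix

theorem mem_tlist {ta tn : ℕ} {T : M4} : T ∈ tlist ta tn ↔ ∃ j < tn, mtab ta j = T := by
  simp [tlist]

theorem tlist_sub {ta a b : ℕ} (h : a ≤ b) : tlist ta a ⊆ tlist ta b := by
  intro T hT
  obtain ⟨j, hj, e⟩ := mem_tlist.1 hT
  exact mem_tlist.2 ⟨j, hj.trans_le h, e⟩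

theorem finl (hD : DescStmt) (hS : SimStmt) : FinlStmt := by
  intro ta h1 h2 h3
  refine hS (tlist ta 919) ?_ ?_
  · intro T hT
    obtain ⟨j, hj, rfl⟩ := mem_tlist.1 hT
    exact h1 j hj
  · refine hD (tlist ta 67) (tlist ta 78) (tlist ta 99) (tlist ta 141) (tlist ta 290)
      (tlist ta 919) (tlist_sub (by norm_num)) (tlist_sub (by norm_num))
      (tlist_sub (by norm_num)) (tlist_sub (by norm_num)) (tlist_sub (by norm_num)) h3
      ?_ ?_ ?_ ?_ ?_ ?_ ?_ ?_ ?_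
    · intro p hp h7 R hR L hL hr hc
      obtain ⟨j, hj, rfl⟩ := mem_tlist.1 hR
      exact (h2 j (by omega)).2.2.2.2 hj p hp h7 L hL hr hc
    · intro R hR L hL hr hc
      obtain ⟨j, hj, rfl⟩ := mem_tlist.1 hR
      exact ((h2 j (by omega)).2.2.2.1 hj).1 L hL hr hc
    · intro R hR L hL hr hc
      obtain ⟨j, hj, rfl⟩ := mem_tlist.1 hR
      exact ((h2 j (by omega)).2.2.2.1 hj).2 L hL hr hc
    · intro R hR L hL hr hc
      obtain ⟨j, hj, rfl⟩ := mem_tlist.1 hR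
      exact ((h2 j (by omega)).2.2.1 hj).1 L hL hr hc
    · intro R hR L hL hr hc
      obtain ⟨j, hj, rfl⟩ := mem_tlist.1 hR
      exact ((h2 j (by omega)).2.2.1 hj).2 L hL hr hc
    · intro R hR L hL hr hc
      obtain ⟨j, hj, rfl⟩ := mem_tlist.1 hR
      exact ((h2 j (by omega)).2.1 hj).1 L hL hr hc
    · intro R hR L hL hr hc
      obtain ⟨j, hj, rfl⟩ := mem_tlist.1 hR
      exact ((h2 j (by omega)).2.1 hj).2 L hL hr hc
    · intro R hR L hL hr hc
      obtain ⟨j, hj, rfl⟩ := mem_tlist.1 hR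
      exact (h2 j hj).1.1 L hL hr hc
    · intro R hR L hL hr hc
      obtain ⟨j, hj, rfl⟩ := mem_tlist.1 hR
      exact (h2 j hj).1.2 L hL hr hc

end Pool.Agent.Refl.H18C
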