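import Pool.Agent.Helper18_Refl.KBase

/-!
# HAND
-/

namespace Pool.Agent.Refl.H18

open Matrix

theorem rdl_ne : ∀ (k : ℕ) (f : List ℕ → ℕ → ℕ) (s : ℕ), K.rdl k f s ≠ 0 →
    ∃ l s', f l s' ≠ 0 := by
  intro k
  induction k with
  | zero => exact fun f s h => ⟨[], s, h⟩
  | succ k ih =>
    intro f s h
    have h' : K.fc (Nat.add (Nat.mul 16 (Nat.mod s 4096)) (Nat.mod (Nat.div s 4096) 16)) (fun x =>
      K.fc (Nat.div s 65536) fun s => K.rdl k (fun l s => f (List.cons x l) s) s) ≠ 0 := h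
    rw [fc_eq, fc_eq] at h'
    obtain ⟨l, s', h1⟩ := ih _ _ h'
    exact ⟨_, s', h1⟩

theorem isV_perm1 {G : M4} {m : ℕ} {e : Fin m → Z4} {i j k : Fin m} (h : IsV G e i j k) :
    IsV G e i k j := by
  obtain ⟨h1, h2, h3, V, hV, hm, h4, h5, h6⟩ := h
  exact ⟨h3, h2.symm, h1, V, hV, hm, h4, h6, h5⟩

theorem isV_perm2 {G : M4} {m : ℕ} {e : Fin m → Z4} {i j k : Fin m} (h : IsV G e i j k) :
    IsV G e j k i := by
  obtain ⟨h1, h2, h3, V, hV, hm, h4, h5, h6⟩ := h
  exact ⟨h2, h3.symm, h1.symm, V, hV, hm, h5, h6, h4⟩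

/-- the roots in the original numbering -/
theorem getE_eq (s0 s1 s2 s3 d5 d6 : Fin 6) (n : ℕ) (E0 E1 E2 E3 E4 E5 : K.I4)
    {m : ℕ} (f : Fin m → Z4) (σ : Fin 6 → Fin m)
    (h0 : vI E0 = f (σ s0)) (h1 : vI E1 = f (σ s1)) (h2 : vI E2 = f (σ s2))
    (h3 : vI E3 = f (σ s3)) (h4 : 5 ≤ n → vI E4 = f (σ d5)) (h5 : 6 ≤ n → vI E5 = f (σ d6))
    (hall : ∀ i : Fin 6, (i : ℕ) < n → i = s0 ∨ i = s1 ∨ i = s2 ∨ i = s3 ∨ (5 ≤ n ∧ i = d5) ∨
      (6 ≤ n ∧ i = d6)) (i : Fin 6) (hi : (i : ℕ) < n) :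
    vI (K.getE s0 s1 s2 s3 d5 E0 E1 E2 E3 E4 E5 i) = f (σ i) := by
  have hb : ∀ j : Fin 6, Nat.beq (i : ℕ) (j : ℕ) = true ↔ i = j := by
    intro j
    rw [beq_true]
    exact Fin.val_inj
  unfold K.getE
  cases c0 : Nat.beq (i : ℕ) (s0 : ℕ) with
  | true =>
    rw [hb] at c0
    rw [c0]
    exact h0
  | false =>
    cases c1 : Nat.beq (i : ℕ) (s1 : ℕ) with
    | true =>
      rw [hb] at c1
      rw [c1]
      exact h1
    | false =>
      cases c2 : Nat.beq (i : ℕ) (s2 : ℕ) with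
      | true =>
        rw [hb] at c2
        rw [c2]
        exact h2
      | false =>
        cases c3 : Nat.beq (i : ℕ) (s3 : ℕ) with
        | true =>
          rw [hb] at c3
          rw [c3]
          exact h3
        | false =>
          have n0 : i ≠ s0 := by rw [Ne, ← hb, c0]; simp
          have n1 : i ≠ s1 := by rw [Ne, ← hb, c1]; simp
          have n2 : i ≠ s2 := by rw [Ne, ← hb, c2]; simp
          have n3 : i ≠ s3 := by rw [Ne, ← hb, c3]; simp
          have ha := hall i hi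
          simp only [n0, n1, n2, n3, false_or] at ha
          cases c4 : Nat.beq (i : ℕ) (d5 : ℕ) with
          | true =>
            rw [hb] at c4
            have hn : 5 ≤ n := by
              rcases ha with h | h
              · exact h.1
              · omega
            rw [c4]
            exact h4 hn
          | false =>
            have n4 : i ≠ d5 := by rw [Ne, ← hb, c4]; simp
            rcases ha with h | h
            · exact absurd h.2 n4
            · rw [h.2]
              exact h5 h.1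

theorem hand (rd : RdEsStmt) (tr : TrfStmt) (la : LinAStmt) (vc : VChkStmt) (fa : FarCStmt) :
    HandStmt := by
  intro T C D0 P F G a b e m f O tag n code σ s0 s1 s2 s3 d5 d6 k0 k1 k2 k3 y0 y1 y2 y3 row w s U
    he hch hco hnd h0 h1 h2 h3 h4 h5 hall hfin
  obtain ⟨-, -, -, a', b', ha', hb', hab⟩ := id hfin
  obtain ⟨hLR, ⟨O', hchR⟩, hVR, hnnR, hfarR, hprR, hcoR⟩ :=
    tr G (mrow w row) U a' b' m f O he.lat ha' hb' hab hch
  have hcoR' := hcoR tag n code σ hco
  set f' : Fin m → Z4 := fun i => ((U⁻¹ : M4ˣ) : M4).mulVec (f i) with hf'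
  -- the roots
  have hroots : ∀ (E0 E1 E2 E3 E4 E5 : K.I4), vI E0 = ((U⁻¹ : M4ˣ) : M4).mulVec (e 0) →
      vI E1 = ((U⁻¹ : M4ˣ) : M4).mulVec (e 1) → vI E2 = ((U⁻¹ : M4ˣ) : M4).mulVec (e 2) →
      vI E3 = ((U⁻¹ : M4ˣ) : M4).mulVec (e 3) →
      (1 ≤ T.nd → vI E4 = ((U⁻¹ : M4ˣ) : M4).mulVec (e 4)) →
      (2 ≤ T.nd → vI E5 = ((U⁻¹ : M4ˣ) : M4).mulVec (e 5)) →
      ∀ i : Fin 6, (i : ℕ) < n → vI (K.getE s0 s1 s2 s3 d5 E0 E1 E2 E3 E4 E5 i) = f' (σ i) := by
    intro E0 E1 E2 E3 E4 E5 hE0 hE1 hE2 hE3 hE4 hE5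
    apply getE_eq s0 s1 s2 s3 d5 d6 n E0 E1 E2 E3 E4 E5 f' σ
    · rw [hE0, h0]
    · rw [hE1, h1]
    · rw [hE2, h2]
    · rw [hE3, h3]
    · intro hn
      rw [hE4 (by omega), h4 hn]
    · intro hn
      rw [hE5 (by omega), h5 hn]
    · exact hall
  constructor
  · by_contra hne
    obtain ⟨E0, E1, E2, E3, E4, E5, s', hv, hE0, hE1, hE2, hE3, hE4, hE5⟩ :=
      rd T C D0 P F G a b e y0 y1 y2 y3 row w s U _ he hfin hne
    have hg := hroots E0 E1 E2 E3 E4 E5 hE0 hE1 hE2 hE3 hE4 hE5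
    rw [fc_eq, fc_eq, fc_eq, fc_eq] at hv
    obtain ⟨r0, r1, r2, r3, s'', -, -, -, -, hr⟩ := rd4_eq (Nat.mod (Nat.mod s' 1024) 32)
      (Nat.div s' 1024)
    rw [hr, fc_eq] at hv
    obtain ⟨hv1, hv2⟩ := boolrec_ne hv
    rw [ands_true, ands_true, blt_true, blt_true] at hv1
    obtain ⟨hR, hvn, hvn'⟩ := hv1
    have hc := vc (K.i10 w row) m f' O' tag n code σ
      (K.getE s0 s1 s2 s3 d5 E0 E1 E2 E3 E4 E5) hLR hchR hcoR' hg _ _ _ hR hvn hvn'
    generalize Nat.mod (Nat.div (Nat.mod s' 1024) 32) 2 = kd at hv2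
    cases kd with
    | zero =>
      have hv3 : K.fc (Nat.mod s'' 32) (fun wc => K.rd4 wc (Nat.div s'' 32) fun al be ga D s =>
          K.fc (Nat.div (Nat.pow 2 wc) 2) fun tc => _) ≠ 0 := hv2
      rw [fc_eq] at hv3
      obtain ⟨al, be, ga, D, s3, -, -, -, -, hr2⟩ := rd4_eq (Nat.mod s'' 32) (Nat.div s'' 32)
      rw [hr2, fc_eq, okb_ne_zero] at hv3
      rw [hc.1] at hv3
      exact absurd hv3 (by simp)
    | succ kd =>
      have hv3 := okb_ne_zero.1 hv2
      rw [hc.2] at hv3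
      exact absurd hv3 (by simp)
  · by_contra hne
    obtain ⟨E0, E1, E2, E3, E4, E5, s', hv, hE0, hE1, hE2, hE3, hE4, hE5⟩ :=
      rd T C D0 P F G a b e y0 y1 y2 y3 row w s U _ he hfin hne
    have hg := hroots E0 E1 E2 E3 E4 E5 hE0 hE1 hE2 hE3 hE4 hE5
    rw [fc_eq, fc_eq] at hv
    obtain ⟨ml, s'', hv⟩ := rdl_ne _ _ _ hv
    rw [okb_ne_zero, ands_true, ands_true] at hv
    obtain ⟨⟨hok, hprm⟩, hmk⟩ := hv
    have hed : Nat.mod s' 4 < 4 := Nat.mod_lt _ (by norm_num)
    generalize Nat.mod s' 4 = ed at hok hmk hed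
    set g := K.getE s0 s1 s2 s3 d5 E0 E1 E2 E3 E4 E5 with hgd
    have hprR' : PrimG (mrow w row) := (la.2.2.2.2.2.2.2.2.2 (K.i10 w row)).1 hprm
    have hred := (hprR he.red.1 hprR').2 he.red
    have htag : 1 ≤ tag := by
      interval_cases ed
      · exact ble_true.1 hok
      · have h7 : K.ands (K.notb (Nat.beq tag 2)) (K.ands (Nat.ble 1 tag)
          (Nat.beq (K.nl code 0 1) 0)) = true := hok
        rw [ands_true, ands_true, ble_true] at h7
        exact h7.2.1
      · have h7 : Nat.beq tag 1 = true := hok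
        rw [beq_true] at h7
        omega
      · have h7 : Nat.beq tag 1 = true := hok
        rw [beq_true] at h7
        omega
    have hn5 : 5 ≤ n := by
      have h7 := hco.n4
      have h8 := hco.t0
      by_contra h9
      have h10 := h8 (by omega)
      omega
    have hσ : ∀ i j : Fin 6, (i : ℕ) < 5 → (j : ℕ) < 5 → i ≠ j → σ i ≠ σ j := by
      intro i j hi hj hij
      exact hco.inj i j (by omega) (by omega) hij
    have hkn : ∀ d : Fin 6, (d : ℕ) < 5 → ∀ x ∈ (List.cons (g (d : ℕ)) (List.cons (g 4)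
        (Nat.rec List.nil (fun _ _ => List.cons (g 5) List.nil) (Nat.sub n 5))) : List K.I4),
        ∃ h, vI x = f' h := by
      intro d hd x hx
      rw [List.mem_cons, List.mem_cons] at hx
      rcases hx with hx | hx | hx
      · exact ⟨σ d, by rw [hx]; exact hg d (by omega)⟩
      · exact ⟨σ 4, by rw [hx]; exact hg 4 (by show 4 < n; omega)⟩
      · have h7 := hco.n6
        rcases Nat.lt_or_ge n 6 with h8 | h8
        · have h9 : Nat.sub n 5 = 0 := by
            show n - 5 = 0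
            omega
          rw [h9] at hx
          exact absurd hx (by simp)
        · have h9 : Nat.sub n 5 = 1 := by
            show n - 5 = 1
            omega
          rw [h9] at hx
          have h10 : x ∈ ([g 5] : List K.I4) := hx
          rw [List.mem_singleton] at h10
          exact ⟨σ 5, by rw [h10]; exact hg 5 (by show 5 < n; omega)⟩
    have hnum : ∀ i j : Fin 6, (i : ℕ) < n → (j : ℕ) < n → i ≠ j →
        nn (matI (K.i10 w row)) (f' (σ i)) (f' (σ j)) = K.nl code i j := hcoR'.num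
    -- one edge
    have hedge : ∀ i j k d : Fin 6, (i : ℕ) < 5 → (j : ℕ) < 5 → (k : ℕ) < 5 → (d : ℕ) < 5 →
        i ≠ j → i ≠ k → d ≠ i → d ≠ j → d ≠ k →
        IsV (matI (K.i10 w row)) f' (σ i) (σ j) (σ k) → ∀ l m',
        FarF (matI (K.i10 w row)) f' (σ i) (σ j) (σ k) l m' →
        K.mkEd (K.i10 w row) (g (i : ℕ)) (g (j : ℕ)) (g (k : ℕ)) (K.ori (K.i10 w row) (g (d : ℕ)))
          (fun E => K.farC E (List.cons (g (d : ℕ)) (List.cons (g 4)
          (Nat.rec List.nil (fun _ _ => List.cons (g 5) List.nil) (Nat.sub n 5)))) ml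
          (K.nl code i j) (K.nl code i k) l m') = false := by
      intro i j k d hi hj hk hd hij hik hdi hdj hdk hV l m' hF
      have h7 := fa (K.i10 w row) m f' O' (σ i) (σ j) (σ k) (σ d) (g (i : ℕ)) (g (j : ℕ))
        (g (k : ℕ)) (g (d : ℕ)) _ ml l m' hLR hred hchR hV (hg i (by omega)) (hg j (by omega))
        (hg k (by omega)) (hg d (by omega)) (hσ d i hd hi hdi) (hσ d j hd hj hdj)
        (hσ d k hd hk hdk) (hkn d hd) hF
      rw [hnum i j (by omega) (by omega) hij, hnum i k (by omega) (by omega) hik] at h7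
      exact h7
    interval_cases ed
    · have h7 := hedge 0 3 1 2 (by decide) (by decide) (by decide) (by decide) (by decide)
        (by decide) (by decide) (by decide) (by decide) (isV_perm1 hcoR'.v1) _ _
        (hcoR'.far0 htag)
      have h8 := hmk.symm.trans h7
      exact absurd h8 (by simp)
    · have h9 : K.ands (K.notb (Nat.beq tag 2)) (K.ands (Nat.ble 1 tag)
          (Nat.beq (K.nl code 0 1) 0)) = true := hok
      rw [ands_true, ands_true, notb_true, beq_false, beq_true] at h9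
      have h7 := hedge 1 3 0 2 (by decide) (by decide) (by decide) (by decide) (by decide)
        (by decide) (by decide) (by decide) (by decide) (isV_perm2 hcoR'.v1) _ _
        (hcoR'.far1 htag h9.1 h9.2.2)
      have h8 := hmk.symm.trans h7
      exact absurd h8 (by simp)
    · have h9 : Nat.beq tag 1 = true := hok
      rw [beq_true] at h9
      have h7 := hedge 1 2 0 3 (by decide) (by decide) (by decide) (by decide) (by decide)
        (by decide) (by decide) (by decide) (by decide) (isV_perm2 hcoR'.v0) _ _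
        (hcoR'.far2 h9)
      have h8 := hmk.symm.trans h7
      exact absurd h8 (by simp)
    · have h9 : Nat.beq tag 1 = true := hok
      rw [beq_true] at h9
      have h7 := hedge 1 2 0 3 (by decide) (by decide) (by decide) (by decide) (by decide)
        (by decide) (by decide) (by decide) (by decide) (isV_perm2 hcoR'.v0) _ _
        (hcoR'.far2 h9)
      have h8 := hmk.symm.trans h7
      exact absurd h8 (by simp)

end Pool.Agent.Refl.H18
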