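import Pool.Agent.Helper18_Refl.KBase

/-!
# Contradictions at a node: common lemmas
-/

namespace Pool.Agent.Refl.H18

open Matrix

/-- the vector of four signed coefficients -/
def zt (t z0 z1 z2 z3 : ℕ) : Z4 := ![(z0 : ℤ) - t, z1 - t, z2 - t, z3 - t]

theorem om_eq {c : K.Ctx} {D0 : ℕ} (h : CtxB c D0) :
    (c.Om : ℤ) = ∑ j : Fin 4, (c.Q : ℤ) * (c.B : ℤ) ^ (j : ℕ) := by
  rw [h.Om, h.B3, h.B2]
  simp only [Fin.sum_univ_four]
  push_cast
  simp
  ring

theorem pk_sub {c : K.Ctx} {D0 : ℕ} (h : CtxB c D0) {x : ℕ} {v : Z4} (hx : Pk c x v) :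
    (x : ℤ) - c.Om = ∑ j : Fin 4, v j * (c.B : ℤ) ^ (j : ℕ) := by
  have h1 := hx.1
  unfold Pg at h1
  rw [h1, om_eq h, ← Finset.sum_sub_distrib]
  refine Finset.sum_congr rfl fun j _ => ?_
  push_cast
  ring

theorem q_pos {c : K.Ctx} {D0 : ℕ} (h : CtxB c D0) : 0 < c.Q := by
  rw [h.Q]
  have := h.D
  positivity

theorem pkn_bd {c : K.Ctx} {n0 n1 n2 n3 : ℕ} {N : M4} (h : PkN c n0 n1 n2 n3 N) (i j : Fin 4) :
    |N j i| ≤ c.Q := (h i).2 j

theorem mulVec4 (N : M4) (v : Z4) (j : Fin 4) :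
    N.mulVec v j = N j 0 * v 0 + N j 1 * v 1 + N j 2 * v 2 + N j 3 * v 3 := by
  simp [Matrix.mulVec, dotProduct, Fin.sum_univ_four]

/-- size of a combination -/
theorem comb_bd {c : K.Ctx} {n0 n1 n2 n3 : ℕ} {N : M4} (h : PkN c n0 n1 n2 n3 N) (z : Z4)
    (hz : ∀ i, |z i| ≤ 2 ^ 64) (j : Fin 4) : |N.mulVec z j| ≤ 2 ^ 66 * c.Q := by
  rw [mulVec4]
  have hb : ∀ i, |N j i * z i| ≤ 2 ^ 64 * c.Q := by
    intro i
    rw [abs_mul]
    calc |N j i| * |z i| ≤ (c.Q : ℤ) * 2 ^ 64 :=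
          mul_le_mul (pkn_bd h i j) (hz i) (abs_nonneg _) (by positivity)
      _ = 2 ^ 64 * c.Q := by ring
  have h0 := abs_le.1 (hb 0)
  have h1 := abs_le.1 (hb 1)
  have h2 := abs_le.1 (hb 2)
  have h3 := abs_le.1 (hb 3)
  rw [abs_le]
  constructor <;> nlinarith [h0.1, h0.2, h1.1, h1.2, h2.1, h2.2, h3.1, h3.2]

theorem half_lt (w : ℕ) (hw : w < 64) : 2 ^ w / 2 < 2 ^ 64 := by
  have h1 : 2 ^ w ≤ 2 ^ 63 := Nat.pow_le_pow_right (by norm_num) (by omega)
  have h2 : 2 ^ w / 2 ≤ 2 ^ w := Nat.div_le_self _ _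
  have : (2 : ℕ) ^ 63 < 2 ^ 64 := by norm_num
  omega

theorem lt64 {w z : ℕ} (hw : w < 64) (hz : z < 2 ^ w) : z < 2 ^ 64 := by
  have h1 : 2 ^ w ≤ 2 ^ 64 := Nat.pow_le_pow_right (by norm_num) (by omega)
  omega

theorem zt_bd {t z0 z1 z2 z3 : ℕ} (ht : t < 2 ^ 64) (h0 : z0 < 2 ^ 64) (h1 : z1 < 2 ^ 64)
    (h2 : z2 < 2 ^ 64) (h3 : z3 < 2 ^ 64) (i : Fin 4) : |zt t z0 z1 z2 z3 i| ≤ 2 ^ 64 := by
  have ht' : (t : ℤ) < 2 ^ 64 := by exact_mod_cast ht
  have h0' : (z0 : ℤ) < 2 ^ 64 := by exact_mod_cast h0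
  have h1' : (z1 : ℤ) < 2 ^ 64 := by exact_mod_cast h1
  have h2' : (z2 : ℤ) < 2 ^ 64 := by exact_mod_cast h2
  have h3' : (z3 : ℤ) < 2 ^ 64 := by exact_mod_cast h3
  rw [abs_le]
  fin_cases i <;> simp only [zt] <;> constructor <;> simp <;> omega

/-- injectivity of a matrix with nonzero determinant -/
theorem mulVec_inj {F : M4} (hF : F.det ≠ 0) {x y : Z4} (h : F.mulVec x = F.mulVec y) : x = y := by
  have h1 : F.adjugate.mulVec (F.mulVec x) = F.adjugate.mulVec (F.mulVec y) := by rw [h]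
  rw [Matrix.mulVec_mulVec, Matrix.mulVec_mulVec, Matrix.adjugate_mul, Matrix.smul_mulVec,
    Matrix.smul_mulVec, Matrix.one_mulVec, Matrix.one_mulVec] at h1
  funext i
  have h2 := congrFun h1 i
  simp only [Pi.smul_apply, smul_eq_mul] at h2
  exact mul_left_cancel₀ hF h2

/-- divisibility of a vector, after a matrix whose determinant is not divisible by `p` -/
theorem dvd_of_mulVec {p : ℕ} (hp : p.Prime) {W : M4} (hW : ¬ (p : ℤ) ∣ W.det) {k : ℕ} {x : Z4}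
    (h : ∀ i, (p : ℤ) ^ k ∣ W.mulVec x i) : ∀ i, (p : ℤ) ^ k ∣ x i := by
  intro i
  have h1 : ∀ i, (p : ℤ) ^ k ∣ W.adjugate.mulVec (W.mulVec x) i := by
    intro i
    rw [mulVec4]
    exact dvd_add (dvd_add (dvd_add ((h 0).mul_left _) ((h 1).mul_left _)) ((h 2).mul_left _))
      ((h 3).mul_left _)
  have h2 := h1 i
  rw [Matrix.mulVec_mulVec, Matrix.adjugate_mul, Matrix.smul_mulVec, Matrix.one_mulVec] at h2
  simp only [Pi.smul_apply, smul_eq_mul] at h2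
  have hpi : Prime (p : ℤ) := Nat.prime_iff_prime_int.1 hp
  exact (hpi.pow_dvd_of_dvd_mul_left k hW h2)

/-- closed primes do not divide the index -/
theorem clo_not_dvd {F N W : M4} {D cl p : ℕ} (hp : p.Prime) (hFW : F * W = N)
    (hD : N.det.natAbs = D) (hcl : ∀ p : ℕ, p.Prime → p ∣ cl → ¬ (p : ℤ) ∣ W.det)
    (h : K.clo D cl p = true) : ¬ (p : ℤ) ∣ W.det := by
  unfold K.clo at h
  cases h1 : K.notb (Nat.beq (Nat.mod D p) 0) with
  | true =>
    intro h2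
    have h3 : (p : ℤ) ∣ N.det := by
      rw [← hFW, Matrix.det_mul]
      exact h2.mul_left _
    have h4 : p ∣ D := by
      rw [← hD]
      exact Int.natCast_dvd.1 h3
    rw [notb_true, beq_false] at h1
    exact h1 (Nat.mod_eq_zero_of_dvd h4)
  | false =>
    rw [h1] at h
    have h2 : Nat.beq (Nat.mod cl p) 0 = true := h
    rw [beq_true] at h2
    exact hcl p hp (Nat.dvd_of_mod_eq_zero h2)

/-- a unit entry -/
theorem exists_unit {p : ℕ} (hp : p.Prime) {G W : M4} (hG : PrimG G)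
    (hW : ¬ (p : ℤ) ∣ W.det) : ∃ i j, ¬ (p : ℤ) ∣ (W.transpose * G * W) i j := by
  by_contra hcon
  push Not at hcon
  have hWt : ¬ (p : ℤ) ∣ W.transpose.det := by rwa [Matrix.det_transpose]
  have h1 : ∀ i j, (p : ℤ) ∣ (G * W) i j := by
    intro i j
    have h2 : ∀ i, (p : ℤ) ^ 1 ∣ W.transpose.mulVec (fun i => (G * W) i j) i := by
      intro i
      have h3 := hcon i j
      rw [Matrix.mul_assoc] at h3
      rw [pow_one]
      exact h3
    have h4 := dvd_of_mulVec hp hWt h2 i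
    rwa [pow_one] at h4
  have h2 : ∀ i j, (p : ℤ) ∣ G i j := by
    intro i j
    have h3 : ∀ j, (p : ℤ) ^ 1 ∣ W.transpose.mulVec (fun j => G i j) j := by
      intro j
      have h4 := h1 i j
      rw [pow_one]
      have h5 : W.transpose.mulVec (fun j => G i j) j = (G * W) i j := by
        simp only [Matrix.mulVec, dotProduct, Matrix.mul_apply, Matrix.transpose_apply]
        refine Finset.sum_congr rfl fun k _ => by ring
      rw [h5]
      exact h4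
    have h6 := dvd_of_mulVec hp hWt h3 j
    rwa [pow_one] at h6
  have h3 := hG p h2
  rw [Int.isUnit_iff] at h3
  have := hp.two_le
  omega

/-- valuations -/
theorem val_lemma {p : ℕ} (hp : p.Prime) {a b : ℤ} (ha : 0 < a) (hb : 0 < b) {M Γ : M4}
    (hab : a • M = -(b • Γ)) (hM : ∃ i j, ¬ (p : ℤ) ∣ M i j) {v : ℕ}
    (hΓ : ∃ i j, ¬ (p : ℤ) ^ (v + 1) ∣ Γ i j) {k : ℕ} {x : Z4}
    (hx : ∀ i, (p : ℤ) ^ (v + k) ∣ Γ.mulVec x i) : ∀ i, (p : ℤ) ^ k ∣ M.mulVec x i := by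
  have hpi : Prime (p : ℤ) := Nat.prime_iff_prime_int.1 hp
  have hp0 : (p : ℤ) ≠ 0 := hpi.ne_zero
  obtain ⟨a', hae, ha'⟩ := (Int.finiteMultiplicity_iff.2 ⟨by
      rw [Int.natAbs_natCast]; exact hp.one_lt.ne', ha.ne'⟩ :
      FiniteMultiplicity (p : ℤ) a).exists_eq_pow_mul_and_not_dvd
  obtain ⟨b', hbe, hb'⟩ := (Int.finiteMultiplicity_iff.2 ⟨by
      rw [Int.natAbs_natCast]; exact hp.one_lt.ne', hb.ne'⟩ :
      FiniteMultiplicity (p : ℤ) b).exists_eq_pow_mul_and_not_dvd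
  set α := multiplicity (p : ℤ) a
  set β := multiplicity (p : ℤ) b
  have hent : ∀ i j, a * M i j = -(b * Γ i j) := by
    intro i j
    have h1 := congrFun (congrFun hab i) j
    rw [Matrix.smul_apply, Matrix.neg_apply, Matrix.smul_apply, smul_eq_mul, smul_eq_mul] at h1
    exact h1
  obtain ⟨i0, j0, h0⟩ := hM
  have hβα : β ≤ α := by
    have h1 : (p : ℤ) ^ β ∣ M i0 j0 * a := by
      rw [mul_comm, hent, hbe]
      exact (Dvd.intro _ (by ring : (p : ℤ) ^ β * (-(b' * Γ i0 j0)) = -((p : ℤ) ^ β * b' * Γ i0 j0)))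
    have h2 := hpi.pow_dvd_of_dvd_mul_left β h0 h1
    rw [hae] at h2
    have h3 := hpi.pow_dvd_of_dvd_mul_right β ha' h2
    exact (pow_dvd_pow_iff hp0 hpi.not_isUnit).1 h3
  obtain ⟨m, hm⟩ := Nat.exists_eq_add_of_le hβα
  have hent2 : ∀ i j, (p : ℤ) ^ m * a' * M i j = -(b' * Γ i j) := by
    intro i j
    have h1 := hent i j
    rw [hae, hbe, hm, pow_add] at h1
    have h2 : (p : ℤ) ^ β ≠ 0 := pow_ne_zero _ hp0
    apply mul_left_cancel₀ h2
    linear_combination h1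
  obtain ⟨i1, j1, h1⟩ := hΓ
  have hmv : m ≤ v := by
    by_contra hcon
    push Not at hcon
    apply h1
    have h2 : (p : ℤ) ^ m ∣ b' * Γ i1 j1 := by
      rw [← dvd_neg, ← hent2 i1 j1]
      exact Dvd.intro _ (by ring : (p : ℤ) ^ m * (a' * M i1 j1) = (p : ℤ) ^ m * a' * M i1 j1)
    exact (pow_dvd_pow _ (by omega)).trans (hpi.pow_dvd_of_dvd_mul_left m hb' h2)
  intro i
  have h2 : (p : ℤ) ^ m * (a' * M.mulVec x i) = -(b' * Γ.mulVec x i) := by
    rw [mulVec4, mulVec4]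
    linear_combination (x 0) * hent2 i 0 + (x 1) * hent2 i 1 + (x 2) * hent2 i 2 +
      (x 3) * hent2 i 3
  have h3 : (p : ℤ) ^ (v + k) ∣ (p : ℤ) ^ m * (a' * M.mulVec x i) := by
    rw [h2, dvd_neg]
    exact (hx i).mul_left _
  have h4 : v + k = m + (v - m + k) := by omega
  rw [h4, pow_add] at h3
  have h5 := Int.dvd_of_mul_dvd_mul_left (pow_ne_zero m hp0) h3
  have h6 := hpi.pow_dvd_of_dvd_mul_left _ ha' h5
  exact (pow_dvd_pow _ (by omega)).trans h6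

theorem pd_of_pk {c : K.Ctx} {x : ℕ} {v : Z4} (h : Pk c x v) : Pd c x v := by
  refine ⟨1, h.1, fun j => ?_⟩
  have h1 := abs_le.1 (h.2 j)
  have h2 : (0 : ℤ) ≤ c.Q := by positivity
  constructor
  · push_cast; linarith [h1.1]
  · push_cast; linarith [h1.2]

/-- products of the columns -/
theorem dot_col (N P : M4) (z : Z4) (j : Fin 4) :
    (fun i => N i j) ⬝ᵥ P.mulVec (N.mulVec z) = (N.transpose * P * N).mulVec z j := by
  rw [← Matrix.mulVec_mulVec, ← Matrix.mulVec_mulVec]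
  rfl

theorem dot_col2 (N P : M4) (i j : Fin 4) :
    (fun k => N k j) ⬝ᵥ P.mulVec (fun k => N k i) = (N.transpose * P * N) j i := by
  have h1 : (N.transpose * P * N) j i = ∑ k, N k j * (P * N) k i := by
    rw [Matrix.mul_assoc]
    rfl
  rw [h1]
  rfl

/-- the relation between the forms, in the basis of a node -/
theorem rel_node {P F G W N : M4} {a b : ℤ} (rel : a • G = -(b • (F.transpose * P * F)))
    (hFW : F * W = N) : a • (W.transpose * G * W) = -(b • (N.transpose * P * N)) := by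
  have h1 : a • (W.transpose * G * W) = W.transpose * (a • G) * W := by
    rw [Matrix.mul_smul, Matrix.smul_mul]
  rw [h1, rel, ← hFW, Matrix.transpose_mul, Matrix.mul_neg, Matrix.neg_mul, Matrix.mul_smul,
    Matrix.smul_mul]
  simp only [Matrix.mul_assoc]

end Pool.Agent.Refl.H18
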