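import Pool.Agent.Helper18_Refl.KKill

/-!
# KILLA
-/

namespace Pool.Agent.Refl.H18

open Matrix

theorem kPrim_zero (p4 : Pack4Stmt) (c : K.Ctx) (D0 : ℕ) (P F G : M4) (a b : ℤ) (nd : ℕ)
    (e : Fin 6 → Z4) (n0 n1 n2 n3 D cl : ℕ) (ex : List ℕ) (s : ℕ) (he : Env c D0 P F G a b nd e)
    (hn : NodeOK c D0 F n0 n1 n2 n3 D cl ex) : K.kPrim c n0 n1 n2 n3 s = 0 := by
  unfold K.kPrim
  rw [fc_eq, fc_eq, fc_eq, fc_eq]
  set h := Nat.mod s 1048576 with hh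
  set p := Nat.mod (Nat.div h 4) 4096 with hp
  set w := Nat.div h 16384 with hw
  have hh' : h < 1048576 := Nat.mod_lt _ (by norm_num)
  have hp' : p < 4096 := Nat.mod_lt _ (by norm_num)
  have hw' : w < 64 := by
    apply Nat.div_lt_of_lt_mul
    omega
  obtain ⟨z0, z1, z2, z3, s', h0, h1, h2, h3, hr⟩ := rd4_eq w (Nat.div s 1048576)
  rw [hr]
  set t := Nat.div (Nat.pow 2 w) 2 with ht
  have ht' : t < 2 ^ 64 := half_lt w hw'
  rw [okb_eq_zero]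
  by_contra hne
  rw [Bool.not_eq_false, ands_true, ble_true, beq_true] at hne
  obtain ⟨hp2, heq⟩ := hne
  obtain ⟨N, W, hFW, hN, -⟩ := hn
  have h4 := p4 c D0 n0 n1 n2 n3 N he.ctx.toCtxB hN
  have hi : Nat.mod h 4 < 4 := Nat.mod_lt _ (by norm_num)
  obtain ⟨j, hj, hsel⟩ := sel_fin _ hi c.c0 c.c1 c.c2 c.c3
  have hc : ∃ i : Fin 6, Pk c (K.sel (Nat.mod h 4) c.c0 c.c1 c.c2 c.c3) (F.mulVec (e i)) := by
    rw [hsel]
    fin_cases j
    · exact ⟨0, he.c0.1⟩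
    · exact ⟨1, he.c1.1⟩
    · exact ⟨2, he.c2.1⟩
    · exact ⟨3, he.c3.1⟩
  obtain ⟨i, hi⟩ := hc
  have e1 := pk_sub he.ctx.toCtxB hi
  have e2 := h4.1 t z0 z1 z2 z3
  have heq' : (p : ℤ) * K.cX c.Om t z0 z1 z2 z3 n0 n1 n2 n3 + c.Om =
      K.sel (Nat.mod h 4) c.c0 c.c1 c.c2 c.c3 +
        p * (K.cY c.Om t z0 z1 z2 z3 n0 n1 n2 n3 + c.Om) := by exact_mod_cast heq
  have hzb := zt_bd ht' (lt64 hw' h0) (lt64 hw' h1) (lt64 hw' h2) (lt64 hw' h3)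
  have hcb := comb_bd hN (zt t z0 z1 z2 z3) hzb
  have hQ : (0 : ℤ) < c.Q := by exact_mod_cast q_pos he.ctx.toCtxB
  have key : F.mulVec (e i) = fun j => (p : ℤ) * N.mulVec (zt t z0 z1 z2 z3) j := by
    apply h4.2
    · intro j
      calc |F.mulVec (e i) j| ≤ c.Q := hi.2 j
        _ ≤ 2 ^ 100 * c.Q := by nlinarith
    · intro j
      rw [abs_mul, abs_of_nonneg (by positivity : (0 : ℤ) ≤ p)]
      have hp'' : (p : ℤ) ≤ 2 ^ 12 := by
        have : p ≤ 2 ^ 12 := by omega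
        exact_mod_cast this
      calc (p : ℤ) * |N.mulVec (zt t z0 z1 z2 z3) j| ≤ 2 ^ 12 * (2 ^ 66 * c.Q) :=
            mul_le_mul hp'' (hcb j) (abs_nonneg _) (by positivity)
        _ ≤ 2 ^ 100 * c.Q := by nlinarith
    · rw [← e1]
      have : ∑ j : Fin 4, (p : ℤ) * N.mulVec (zt t z0 z1 z2 z3) j * (c.B : ℤ) ^ (j : ℕ) =
          p * ∑ j : Fin 4, N.mulVec (zt t z0 z1 z2 z3) j * (c.B : ℤ) ^ (j : ℕ) := by
        rw [Finset.mul_sum]
        refine Finset.sum_congr rfl fun j _ => by ring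
      rw [this]
      unfold zt
      rw [← e2]
      linarith
  have key2 : e i = (p : ℤ) • W.mulVec (zt t z0 z1 z2 z3) := by
    apply mulVec_inj he.det
    rw [key, Matrix.mulVec_smul, Matrix.mulVec_mulVec, hFW]
    rfl
  have hpr := (he.root i).prim p (fun j => by
    rw [key2]
    exact Dvd.intro _ rfl)
  rw [Int.isUnit_iff] at hpr
  omega

theorem getL_mem : ∀ (l : List ℕ) (i : ℕ), 1 ≤ K.getL l i → K.getL l i ∈ l := by
  intro l
  induction l with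
  | nil =>
    intro i h
    exact absurd h (by simp [K.getL])
  | cons a l ih =>
    intro i h
    cases i with
    | zero => exact List.mem_cons_self
    | succ m =>
      have : K.getL (a :: l) (m + 1) = K.getL l m := rfl
      rw [this] at h ⊢
      exact List.mem_cons_of_mem _ (ih m h)

theorem kExcl_zero (p4 : Pack4Stmt) (c : K.Ctx) (D0 : ℕ) (P F G : M4) (a b : ℤ) (nd : ℕ)
    (e : Fin 6 → Z4) (n0 n1 n2 n3 D cl : ℕ) (ex : List ℕ) (s : ℕ) (he : Env c D0 P F G a b nd e)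
    (hn : NodeOK c D0 F n0 n1 n2 n3 D cl ex) : K.kExcl c n0 n1 n2 n3 ex s = 0 := by
  unfold K.kExcl
  rw [fc_eq, fc_eq, fc_eq, fc_eq]
  set h := Nat.mod s 16384 with hh
  set w := Nat.div h 256 with hw
  have hh' : h < 16384 := Nat.mod_lt _ (by norm_num)
  have hw' : w < 64 := by
    apply Nat.div_lt_of_lt_mul
    omega
  obtain ⟨z0, z1, z2, z3, s', h0, h1, h2, h3, hr⟩ := rd4_eq w (Nat.div s 16384)
  rw [hr]
  set t := Nat.div (Nat.pow 2 w) 2 with ht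
  have ht' : t < 2 ^ 64 := half_lt w hw'
  rw [okb_eq_zero]
  by_contra hne
  rw [Bool.not_eq_false, ands_true, ble_true, beq_true] at hne
  obtain ⟨hx1, heq⟩ := hne
  obtain ⟨N, W, hFW, hN, -, -, -, -, hex⟩ := hn
  have h4 := p4 c D0 n0 n1 n2 n3 N he.ctx.toCtxB hN
  obtain ⟨v, hv, hv2⟩ := hex _ (getL_mem _ _ hx1)
  set x := K.getL ex (Nat.mod h 256) with hx
  have e1 := pk_sub he.ctx.toCtxB hv
  have e2 := h4.1 t z0 z1 z2 z3
  have heq' : (K.cX c.Om t z0 z1 z2 z3 n0 n1 n2 n3 : ℤ) =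
      x + K.cY c.Om t z0 z1 z2 z3 n0 n1 n2 n3 := by exact_mod_cast heq
  have hzb := zt_bd ht' (lt64 hw' h0) (lt64 hw' h1) (lt64 hw' h2) (lt64 hw' h3)
  have hcb := comb_bd hN (zt t z0 z1 z2 z3) hzb
  have hQ : (0 : ℤ) < c.Q := by exact_mod_cast q_pos he.ctx.toCtxB
  have key : v = N.mulVec (zt t z0 z1 z2 z3) := by
    apply h4.2
    · intro j
      calc |v j| ≤ c.Q := hv.2 j
        _ ≤ 2 ^ 100 * c.Q := by nlinarith
    · intro j
      calc |N.mulVec (zt t z0 z1 z2 z3) j| ≤ 2 ^ 66 * c.Q := hcb j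
        _ ≤ 2 ^ 100 * c.Q := by nlinarith
    · rw [← e1]
      unfold zt
      rw [← e2]
      linarith
  apply hv2 (W.mulVec (zt t z0 z1 z2 z3))
  rw [Matrix.mulVec_mulVec, hFW, key]

theorem sel_prime (i : ℕ) (h : i < 4) : K.sel i 2 3 5 7 ∈ [2, 3, 5, 7] ∧ (K.sel i 2 3 5 7).Prime := by
  interval_cases i
  · exact ⟨by simp [sel_0], by rw [sel_0]; norm_num⟩
  · exact ⟨by simp [sel_1], by rw [sel_1]; norm_num⟩
  · exact ⟨by simp [sel_2], by rw [sel_2]; norm_num⟩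
  · exact ⟨by simp [sel_3], by rw [sel_3]; norm_num⟩

theorem orth_true (c : K.Ctx) (q n0 n1 n2 n3 Z : ℕ)
    (h : (Nat.rec true (fun z _ => K.ands
        (K.ands (Nat.beq (K.dt c (Nat.succ z) n0 q) 0) (Nat.beq (K.dt c (Nat.succ z) n1 q) 0))
        (K.ands (Nat.beq (K.dt c (Nat.succ z) n2 q) 0) (Nat.beq (K.dt c (Nat.succ z) n3 q) 0)))
        Z : Bool) = true) :
    K.dt c Z n0 q = 0 ∧ K.dt c Z n1 q = 0 ∧ K.dt c Z n2 q = 0 ∧ K.dt c Z n3 q = 0 := by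
  cases Z with
  | zero =>
    have h0 : ∀ y, K.dt c 0 y q = 0 := by
      intro y
      show (0 * y) / c.B3 % q = 0
      simp
    exact ⟨h0 _, h0 _, h0 _, h0 _⟩
  | succ z =>
    have h' : K.ands
        (K.ands (Nat.beq (K.dt c (Nat.succ z) n0 q) 0) (Nat.beq (K.dt c (Nat.succ z) n1 q) 0))
        (K.ands (Nat.beq (K.dt c (Nat.succ z) n2 q) 0) (Nat.beq (K.dt c (Nat.succ z) n3 q) 0)) =
        true := h
    rw [ands_true, ands_true, ands_true, beq_true, beq_true, beq_true, beq_true] at h'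
    exact ⟨h'.1.1, h'.1.2, h'.2.1, h'.2.2⟩

theorem kSSF_zero (p2 : Pack2Stmt) (p3 : Pack3Stmt) (c : K.Ctx) (D0 : ℕ) (P F G : M4) (a b : ℤ)
    (nd : ℕ) (e : Fin 6 → Z4) (n0 n1 n2 n3 D cl : ℕ) (ex : List ℕ) (s : ℕ)
    (he : Env c D0 P F G a b nd e) (hn : NodeOK c D0 F n0 n1 n2 n3 D cl ex) :
    K.kSSF c n0 n1 n2 n3 D cl s = 0 := by
  unfold K.kSSF
  rw [fc_eq, fc_eq, fc_eq, fc_eq]
  set h := Nat.mod s 131072 with hh
  set p := K.sel (Nat.mod h 4) 2 3 5 7 with hp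
  set v := Nat.mod (Nat.div h 4) 32 with hv
  set q := Nat.pow p (Nat.add v 2) with hq
  have hh' : h < 131072 := Nat.mod_lt _ (by norm_num)
  obtain ⟨hp1, hp2⟩ := sel_prime (Nat.mod h 4) (Nat.mod_lt _ (by norm_num))
  rw [← hp] at hp1 hp2
  have hw' : Nat.div h 2048 < 64 := by
    apply Nat.div_lt_of_lt_mul
    omega
  obtain ⟨z0, z1, z2, z3, s', h0, h1, h2, h3, hr⟩ := rd4_eq (Nat.div h 2048) (Nat.div s 131072)
  rw [hr]
  rw [okb_eq_zero]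
  by_contra hne
  rw [Bool.not_eq_false, ands_true, ands_true, ands_true, ands_true, notb_true, notb_true,
    beq_true, beq_false] at hne
  obtain ⟨⟨hclo, hQq⟩, hz, hne0, horth⟩ := hne
  obtain ⟨N, W, hFW, hN, hdet, -, -, hcl, -⟩ := hn
  have hWp := clo_not_dvd hp2 hFW hdet hcl hclo
  have hq0 : 0 < q := Nat.pos_of_ne_zero (pow_ne_zero _ hp2.ne_zero)
  have hqQ : q ∣ c.Q := Nat.dvd_of_mod_eq_zero hQq
  have hX := (p3 c D0 n0 n1 n2 n3 N he.ctx.toCtxB hN z0 z1 z2 z3 (lt64 hw' h0) (lt64 hw' h1)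
    (lt64 hw' h2) (lt64 hw' h3)).1
  have ho := orth_true c q n0 n1 n2 n3 _ horth
  set X := Nat.add (Nat.add (Nat.mul z0 n0) (Nat.mul z1 n1))
    (Nat.add (Nat.mul z2 n2) (Nat.mul z3 n3)) with hXd
  set z : Z4 := ![(z0 : ℤ), z1, z2, z3] with hzd
  have hcol : ∀ j : Fin 4, K.dt c (K.zr c X q) (![n0, n1, n2, n3] j) q = 0 := by
    intro j
    fin_cases j
    · exact ho.1
    · exact ho.2.1
    · exact ho.2.2.1
    · exact ho.2.2.2
  have hΓz : ∀ j, (p : ℤ) ^ (v + 2) ∣ (N.transpose * P * N).mulVec z j := by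
    intro j
    have h5 := p2 c D0 X (![n0, n1, n2, n3] j) q q P _ _ he.ctx hX (pd_of_pk (hN j)) hq0 hq0
      dvd_rfl hqQ
    rw [hcol j, dot_col] at h5
    have h6 := Int.dvd_of_emod_eq_zero h5.symm
    have h7 : ((q : ℕ) : ℤ) = (p : ℤ) ^ (v + 2) := by
      rw [hq]
      exact Nat.cast_pow p (v + 2)
    rwa [h7] at h6
  have hΓ : ∃ i j, ¬ (p : ℤ) ^ (v + 1) ∣ (N.transpose * P * N) i j := by
    obtain ⟨i, -, hi⟩ := sel_fin (Nat.mod (Nat.div h 128) 4) (Nat.mod_lt _ (by norm_num)) n0 n1 n2 n3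
    obtain ⟨j, -, hj⟩ := sel_fin (Nat.mod (Nat.div h 512) 4) (Nat.mod_lt _ (by norm_num)) n0 n1 n2 n3
    rw [hi, hj] at hne0
    refine ⟨j, i, fun hdv => hne0 ?_⟩
    have h5 := p2 c D0 (![n0, n1, n2, n3] i) (![n0, n1, n2, n3] j) q q P _ _ he.ctx
      (pd_of_pk (hN i)) (pd_of_pk (hN j)) hq0 hq0 dvd_rfl hqQ
    rw [dot_col2] at h5
    set r := K.dt c (K.zr c (![n0, n1, n2, n3] i) q) (![n0, n1, n2, n3] j) q with hr
    have h6 : (p : ℤ) ^ (v + 1) ∣ (r : ℤ) := by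
      rw [h5]
      have h7 : (p : ℤ) ^ (v + 1) ∣ (q : ℤ) := by
        rw [hq]
        have : ((Nat.pow p (Nat.add v 2) : ℕ) : ℤ) = (p : ℤ) ^ (v + 2) := Nat.cast_pow p (v + 2)
        rw [this]
        exact pow_dvd_pow _ (by omega)
      apply Int.dvd_of_emod_eq_zero
      rw [Int.emod_emod_of_dvd _ h7]
      exact Int.emod_eq_zero_of_dvd hdv
    have h8 : p ^ (v + 1) ∣ r := by exact_mod_cast h6
    exact Nat.mod_eq_zero_of_dvd h8
  have hrel := rel_node he.rel hFW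
  obtain ⟨hG, hG2, -⟩ := he.red
  have hu := exists_unit hp2 hG hWp
  have hk := val_lemma hp2 he.a0 he.b0 hrel hu hΓ hΓz
  have hWt : ¬ (p : ℤ) ∣ W.transpose.det := by rwa [Matrix.det_transpose]
  have hk2 : ∀ i, (p : ℤ) ^ 2 ∣ G.mulVec (W.mulVec z) i := by
    apply dvd_of_mulVec hp2 hWt
    intro i
    rw [Matrix.mulVec_mulVec, Matrix.mulVec_mulVec]
    exact hk i
  have hk3 := (hG2 p hp1).1 _ hk2
  have hk4 : ∀ i, (p : ℤ) ^ 1 ∣ z i := by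
    apply dvd_of_mulVec hp2 hWp
    intro i
    rw [pow_one]
    exact hk3 i
  have hk5 : ∀ i, p ∣ ![z0, z1, z2, z3] i := by
    intro i
    have h9 := hk4 i
    rw [pow_one] at h9
    have h10 : z i = ((![z0, z1, z2, z3] i : ℕ) : ℤ) := by
      fin_cases i <;> rfl
    rw [h10] at h9
    exact Int.natCast_dvd_natCast.1 h9
  have hk6 : K.ands (K.ands (Nat.beq (Nat.mod z0 p) 0) (Nat.beq (Nat.mod z1 p) 0))
      (K.ands (Nat.beq (Nat.mod z2 p) 0) (Nat.beq (Nat.mod z3 p) 0)) = true := by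
    rw [ands_true, ands_true, ands_true, beq_true, beq_true, beq_true, beq_true]
    exact ⟨⟨Nat.mod_eq_zero_of_dvd (hk5 0), Nat.mod_eq_zero_of_dvd (hk5 1)⟩,
      Nat.mod_eq_zero_of_dvd (hk5 2), Nat.mod_eq_zero_of_dvd (hk5 3)⟩
  rw [hk6] at hz
  exact absurd hz (by simp)

theorem killA (p2 : Pack2Stmt) (p3 : Pack3Stmt) (p4 : Pack4Stmt) : KillAStmt := by
  intro c D0 P F G a b nd e n0 n1 n2 n3 D cl ex s he hn
  exact ⟨kPrim_zero p4 c D0 P F G a b nd e n0 n1 n2 n3 D cl ex s he hn,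
    kExcl_zero p4 c D0 P F G a b nd e n0 n1 n2 n3 D cl ex s he hn,
    kSSF_zero p2 p3 c D0 P F G a b nd e n0 n1 n2 n3 D cl ex s he hn⟩

end Pool.Agent.Refl.H18
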