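import Pool.Agent.Helper18_Refl.KKill

/-!
# KILLC
-/

namespace Pool.Agent.Refl.H18

open Matrix

theorem bz_eq (G : M4) (x y : Z4) : bz G x y = x ⬝ᵥ G.mulVec y := by
  unfold bz
  simp only [Matrix.mulVec, dotProduct, Finset.mul_sum]
  refine Finset.sum_congr rfl fun i _ => Finset.sum_congr rfl fun j _ => by ring

/-- the form in the coordinates `F` -/
theorem rel_bz {P F G : M4} {a b : ℤ} (rel : a • G = -(b • (F.transpose * P * F))) (x y : Z4) :
    a * bz G x y = -(b * (F.mulVec x ⬝ᵥ P.mulVec (F.mulVec y))) := by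
  have h1 : a * bz G x y = x ⬝ᵥ (a • G).mulVec y := by
    rw [bz_eq, Matrix.smul_mulVec, dotProduct_smul, smul_eq_mul]
  rw [h1, rel, Matrix.neg_mulVec, Matrix.smul_mulVec, dotProduct_neg, dotProduct_smul,
    smul_eq_mul, ← Matrix.mulVec_mulVec, ← Matrix.mulVec_mulVec, Matrix.dotProduct_mulVec,
    Matrix.vecMul_transpose]

/-- a primitive vector -/
theorem prim_dvd {x : Z4} (hx : Prim4 x) {t m : ℤ} (h : ∀ i, t ∣ m * x i) : t ∣ m := by
  by_cases hm : m = 0
  · rw [hm]; exact dvd_zero t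
  by_cases ht : t = 0
  · exfalso
    apply hm
    have h1 : ∀ i, x i = 0 := by
      intro i
      have h2 := h i
      rw [ht, zero_dvd_iff] at h2
      exact (mul_eq_zero.1 h2).resolve_left hm
    have h2 := hx 0 (fun i => by rw [h1 i])
    rw [Int.isUnit_iff] at h2
    omega
  have hg : (Int.gcd t m : ℤ) ≠ 0 := by
    rw [Ne, Int.natCast_eq_zero, Int.gcd_eq_zero_iff]
    exact fun h => hm h.2
  have ht1 : t = Int.gcd t m * (t / Int.gcd t m) := (Int.mul_ediv_cancel' (Int.gcd_dvd_left _ _)).symm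
  have hm1 : m = Int.gcd t m * (m / Int.gcd t m) := (Int.mul_ediv_cancel' (Int.gcd_dvd_right _ _)).symm
  have hco : IsCoprime (t / Int.gcd t m) (m / Int.gcd t m) := by
    rw [Int.isCoprime_iff_gcd_eq_one]
    exact Int.gcd_ediv_gcd_ediv_gcd (Nat.pos_of_ne_zero (by exact_mod_cast hg))
  have h2 : ∀ i, t / Int.gcd t m ∣ x i := by
    intro i
    have h3 := h i
    rw [hm1, mul_assoc] at h3
    nth_rewrite 1 [ht1] at h3
    have h4 := Int.dvd_of_mul_dvd_mul_left hg h3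
    exact hco.dvd_of_dvd_mul_left h4
  have h3 := hx _ h2
  rw [ht1]
  exact ((associated_mul_unit_left _ _ h3).dvd).trans (Int.gcd_dvd_right _ _)

theorem der_pos {c : K.Ctx} {D0 : ℕ} (hc : CtxB c D0) {W : ℕ} {w : Z4} (hW : (W : ℤ) =
    ∑ j : Fin 4, w j * (c.B : ℤ) ^ (j : ℕ)) (hw : ∀ j, 0 ≤ w j ∧ w j < 2 ^ 63) : Pd c W w := by
  refine ⟨0, ?_, fun j => ?_⟩
  · unfold Pg
    rw [hW]
    refine Finset.sum_congr rfl fun j _ => ?_
    push_cast
    ring
  · have hQ : (1 : ℤ) ≤ c.Q := by exact_mod_cast q_pos hc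
    constructor
    · push_cast; linarith [(hw j).1]
    · push_cast
      have := (hw j).2
      nlinarith

theorem kDer_zero (p2 : Pack2Stmt) (p4 : Pack4Stmt) (pr : PrimeStmt) : KillCStmt := by
  intro c D0 P F G a b nd e n0 n1 n2 n3 D cl ex s he hn
  unfold K.kDer
  rw [fc_eq, fc_eq, fc_eq, fc_eq, fc_eq, fc_eq, fc_eq, fc_eq]
  set h := Nat.mod s 8796093022208 with hh
  set p := Nat.mod (Nat.div h 2) 4096 with hp
  set q := Nat.pow p (Nat.mod (Nat.div h 8192) 64) with hq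
  set u := Nat.mod (Nat.div h 2097152) 65536 with hu
  set wd := Nat.div h 137438953472 with hwd
  set t := Nat.div (Nat.pow 2 wd) 2 with ht
  set W5 := K.sel (Nat.mod h 2) c.w5 c.w6 0 0 with hW5
  have hh' : h < 8796093022208 := Nat.mod_lt _ (by norm_num)
  have hu' : u < 65536 := Nat.mod_lt _ (by norm_num)
  have hw' : wd < 64 := by
    apply Nat.div_lt_of_lt_mul
    omega
  have ht' : t < 2 ^ 64 := half_lt wd hw'
  obtain ⟨z0, z1, z2, z3, s', h0, h1, h2, h3, hr⟩ := rd4_eq wd (Nat.div s 8796093022208)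
  rw [hr]
  rw [okb_eq_zero]
  by_contra hne
  rw [Bool.not_eq_false, ands_true, ands_true, ands_true, ands_true, ands_true, ands_true,
    notb_true, notb_true, beq_true, beq_true, beq_true, beq_false] at hne
  obtain ⟨⟨hpr, hclo, hQq⟩, heq, hz, hww, hwn⟩ := hne
  obtain ⟨hp2, hp4⟩ := pr p hpr
  obtain ⟨N, W, hFW, hN, hdet, hD, -, hcl, -⟩ := hn
  have hWp := clo_not_dvd hp2 hFW hdet hcl hclo
  have hq0 : 0 < q := Nat.pos_of_ne_zero (pow_ne_zero _ hp2.ne_zero)
  have hqQ : q ∣ c.Q := Nat.dvd_of_mod_eq_zero hQq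
  have h4 := p4 c D0 n0 n1 n2 n3 N he.ctx.toCtxB hN
  have e2 := h4.1 t z0 z1 z2 z3
  have hzb := zt_bd ht' (lt64 hw' h0) (lt64 hw' h1) (lt64 hw' h2) (lt64 hw' h3)
  have hcb := comb_bd hN (zt t z0 z1 z2 z3) hzb
  have hQ : (0 : ℤ) < c.Q := by exact_mod_cast q_pos he.ctx.toCtxB
  have heq' : (K.cX c.Om t z0 z1 z2 z3 n0 n1 n2 n3 : ℤ) + u * W5 =
      K.cY c.Om t z0 z1 z2 z3 n0 n1 n2 n3 + c.Om := by exact_mod_cast heq
  -- not all coefficients vanish modulo p
  have hzn : ¬ ∀ i, (p : ℤ) ∣ zt t z0 z1 z2 z3 i := by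
    intro hall
    have hm : ∀ z : ℕ, (p : ℤ) ∣ (z : ℤ) - t → Nat.beq (Nat.mod z p) (Nat.mod t p) = true := by
      intro z hz
      rw [beq_true]
      have h5 : (t : ℤ) ≡ z [ZMOD p] := (Int.modEq_iff_dvd).2 hz
      exact ((Int.natCast_modEq_iff.1 h5).symm : z ≡ t [MOD p])
    have hk6 : K.ands (K.ands (Nat.beq (Nat.mod z0 p) (Nat.mod t p))
        (Nat.beq (Nat.mod z1 p) (Nat.mod t p)))
        (K.ands (Nat.beq (Nat.mod z2 p) (Nat.mod t p)) (Nat.beq (Nat.mod z3 p) (Nat.mod t p))) =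
        true := by
      rw [ands_true, ands_true, ands_true]
      exact ⟨⟨hm _ (hall 0), hm _ (hall 1)⟩, hm _ (hall 2), hm _ (hall 3)⟩
    rw [hk6] at hz
    exact absurd hz (by simp)
  have hzn0 : zt t z0 z1 z2 z3 ≠ 0 := by
    intro h5
    apply hzn
    intro i
    rw [h5]
    exact dvd_zero _
  have hNdet : N.det ≠ 0 := by
    intro h5
    rw [h5] at hdet
    simp at hdet
    omega
  -- the case without derived root
  have hW0 : W5 ≠ 0 := by
    intro h5
    apply hzn0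
    apply mulVec_inj hNdet
    rw [Matrix.mulVec_zero]
    apply h4.2
    · intro j
      calc |N.mulVec (zt t z0 z1 z2 z3) j| ≤ 2 ^ 66 * c.Q := hcb j
        _ ≤ 2 ^ 100 * c.Q := by nlinarith
    · intro j
      simp
    · rw [h5] at heq'
      unfold zt
      rw [← e2]
      simp
      push_cast at heq'
      linarith
  have hder : ∃ i : Fin 6, Der c F W5 (e i) := by
    have hm2 : Nat.mod h 2 < 2 := Nat.mod_lt _ (by norm_num)
    have h5 := he.w5
    have h6 := he.w6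
    generalize Nat.mod h 2 = i at hW5 hm2
    interval_cases i
    · rw [sel_0] at hW5
      split_ifs at h5 with h7
      · rw [hW5]
        exact ⟨4, h5⟩
      · exact absurd (hW5.trans h5) hW0
    · rw [sel_1] at hW5
      split_ifs at h6 with h7
      · rw [hW5]
        exact ⟨5, h6⟩
      · exact absurd (hW5.trans h6) hW0
  obtain ⟨i, w, σ, τ, hσ, hτ, hw, hWw, hF⟩ := hder
  -- the combination is `- u w`
  have key : N.mulVec (zt t z0 z1 z2 z3) = fun j => -((u : ℤ) * w j) := by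
    apply h4.2
    · intro j
      calc |N.mulVec (zt t z0 z1 z2 z3) j| ≤ 2 ^ 66 * c.Q := hcb j
        _ ≤ 2 ^ 100 * c.Q := by nlinarith
    · intro j
      rw [abs_neg, abs_mul, abs_of_nonneg (by positivity : (0 : ℤ) ≤ u),
        abs_of_nonneg (hw j).1]
      have hu'' : (u : ℤ) ≤ 2 ^ 16 := by
        have : u ≤ 2 ^ 16 := by omega
        exact_mod_cast this
      calc (u : ℤ) * w j ≤ 2 ^ 16 * 2 ^ 63 :=
            mul_le_mul hu'' (hw j).2.le (hw j).1 (by positivity)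
        _ ≤ 2 ^ 100 * c.Q := by nlinarith
    · have h5 : ∑ j : Fin 4, -((u : ℤ) * w j) * (c.B : ℤ) ^ (j : ℕ) = -(u * (W5 : ℤ)) := by
        rw [hWw, Finset.mul_sum, ← Finset.sum_neg_distrib]
        refine Finset.sum_congr rfl fun j _ => by ring
      rw [h5]
      unfold zt
      rw [← e2]
      linarith
  set y : Z4 := W.mulVec (zt t z0 z1 z2 z3) with hy
  have hFy : F.mulVec y = fun j => -((u : ℤ) * w j) := by
    rw [hy, Matrix.mulVec_mulVec, hFW, key]
  have hyn : ¬ ∀ i, (p : ℤ) ∣ y i := by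
    intro hall
    apply hzn
    have h5 := dvd_of_mulVec hp2 hWp (k := 1) (x := zt t z0 z1 z2 z3) (by
      intro i
      rw [pow_one]
      exact hall i)
    intro i
    have h6 := h5 i
    rwa [pow_one] at h6
  -- `τ y = u σ x`
  have hprop : ∀ j, τ * y j = (u * σ) * e i j := by
    have h5 : τ • y = (u * σ) • e i := by
      apply mulVec_inj he.det
      rw [Matrix.mulVec_smul, Matrix.mulVec_smul, hFy]
      funext j
      have h6 := congrFun hF j
      simp only [Pi.smul_apply, Pi.neg_apply, smul_eq_mul] at h6 ⊢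
      linear_combination (-(u : ℤ)) * h6
    intro j
    have h6 := congrFun h5 j
    simpa using h6
  have hdv : τ ∣ u * σ := prim_dvd (he.root i).prim (fun j => by
    rw [← hprop j]
    exact Dvd.intro _ rfl)
  obtain ⟨k, hk⟩ := hdv
  have hyk : y = k • e i := by
    funext j
    have h5 := hprop j
    rw [hk, mul_assoc] at h5
    have h6 := mul_left_cancel₀ hτ.ne' h5
    simpa using h6
  have hpk : ¬ (p : ℤ) ∣ k := by
    intro h5
    apply hyn
    intro j
    rw [hyk]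
    exact h5.mul_right _
  -- divisibility
  obtain ⟨l, hl, hsel⟩ := sel_fin (Nat.mod (Nat.div h 524288) 4) (Nat.mod_lt _ (by norm_num)) n0 n1 n2 n3
  rw [hsel] at hwn
  set x : Z4 := fun r => W r l with hx
  have hFx : F.mulVec x = fun r => N r l := by
    rw [← hFW]
    rfl
  have hroot : bz G y y ∣ k * (2 * bz G x y) := by
    have h5 := (he.root i).dvd x
    have h6 : bz G y y = k * (k * bz G (e i) (e i)) := by
      rw [hyk, bz_eq, bz_eq, Matrix.mulVec_smul, dotProduct_smul, smul_dotProduct, smul_eq_mul,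
        smul_eq_mul]
    have h7 : bz G x y = k * bz G x (e i) := by
      rw [hyk, bz_eq, bz_eq, Matrix.mulVec_smul, dotProduct_smul, smul_eq_mul]
    rw [h6, h7]
    obtain ⟨r, hr⟩ := h5
    exact ⟨r, by linear_combination (k * k) * hr⟩
  have hww1 : a * bz G y y = -(b * (u * u * (w ⬝ᵥ P.mulVec w))) := by
    rw [rel_bz he.rel, hFy]
    have h5 : (fun j => -((u : ℤ) * w j)) = (-(u : ℤ)) • w := by
      funext j
      simp
    rw [h5, Matrix.mulVec_smul, dotProduct_smul, smul_dotProduct, smul_eq_mul, smul_eq_mul]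
    ring
  have hxw1 : a * bz G x y = b * (u * ((fun r => N r l) ⬝ᵥ P.mulVec w)) := by
    rw [rel_bz he.rel, hFy, hFx]
    have h5 : (fun j => -((u : ℤ) * w j)) = (-(u : ℤ)) • w := by
      funext j
      simp
    rw [h5, Matrix.mulVec_smul, dotProduct_smul, smul_eq_mul]
    ring
  have hdiv : (u : ℤ) * u * (w ⬝ᵥ P.mulVec w) ∣
      k * (2 * u * ((fun r => N r l) ⬝ᵥ P.mulVec w)) := by
    obtain ⟨r, hr⟩ := hroot
    have h5 : b * (k * (2 * u * ((fun r => N r l) ⬝ᵥ P.mulVec w))) =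
        b * (u * u * (w ⬝ᵥ P.mulVec w) * -r) := by
      linear_combination (-2 * k) * hxw1 + a * hr + r * hww1
    exact ⟨-r, mul_left_cancel₀ he.b0.ne' h5⟩
  have hPw := der_pos he.ctx.toCtxB hWw hw
  have d1 := p2 c D0 W5 W5 q q P _ _ he.ctx hPw hPw hq0 hq0 dvd_rfl hqQ
  have d2 := p2 c D0 W5 (![n0, n1, n2, n3] l) q q P _ _ he.ctx hPw (pd_of_pk (hN l)) hq0 hq0
    dvd_rfl hqQ
  have hq1 : (q : ℤ) ∣ u * u * (w ⬝ᵥ P.mulVec w) := by
    have h5 : (q : ℤ) ∣ u * u * (K.dt c (K.zr c W5 q) W5 q : ℤ) := by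
      have h6 := Nat.dvd_of_mod_eq_zero hww
      exact_mod_cast h6
    rw [d1] at h5
    rw [Int.dvd_iff_emod_eq_zero] at h5 ⊢
    rw [Int.mul_emod, Int.emod_emod_of_dvd _ dvd_rfl, ← Int.mul_emod] at h5
    exact h5
  have hq2 : (q : ℤ) ∣ 2 * u * ((fun r => N r l) ⬝ᵥ P.mulVec w) := by
    have h5 := hq1.trans hdiv
    have hpi : Prime (p : ℤ) := Nat.prime_iff_prime_int.1 hp2
    have h6 : ((q : ℕ) : ℤ) = (p : ℤ) ^ (Nat.mod (Nat.div h 8192) 64) := by
      rw [hq]
      exact Nat.cast_pow p _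
    rw [h6] at h5 ⊢
    exact hpi.pow_dvd_of_dvd_mul_left _ hpk h5
  apply hwn
  have h5 : (q : ℤ) ∣ 2 * u * (K.dt c (K.zr c W5 q) (![n0, n1, n2, n3] l) q : ℤ) := by
    rw [d2, Int.dvd_iff_emod_eq_zero, Int.mul_emod, Int.emod_emod_of_dvd _ dvd_rfl,
      ← Int.mul_emod, ← Int.dvd_iff_emod_eq_zero]
    exact hq2
  have h6 : q ∣ 2 * u * K.dt c (K.zr c W5 q) (![n0, n1, n2, n3] l) q := by exact_mod_cast h5
  exact Nat.mod_eq_zero_of_dvd h6

theorem killC (p2 : Pack2Stmt) (p4 : Pack4Stmt) (pr : PrimeStmt) : KillCStmt :=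
  kDer_zero p2 p4 pr

end Pool.Agent.Refl.H18
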