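import Pool.Agent.Helper23_Refl.StmtC5
import Pool.Agent.Helper84_Refl.Base
import Pool.Agent.Helper51_Refl.Lor

/-!
# Module SIGP of the squad REFL (MP_c70e36_gt)
Signature (3,1) from three vectors with positive Gram determinants and negative determinant.
-/

set_option autoImplicit false
set_option linter.all false

namespace Pool.Agent.Refl.H18C

open Matrix

/-- entries of `Pᵀ G P` for a matrix with given columns -/
theorem gram_cols (G : M4) (c : Fin 4 → R4) (i j : Fin 4) :
    ((Matrix.of fun a b => c b a).transpose * G.map (Int.cast : ℤ → ℝ) *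
      (Matrix.of fun a b => c b a)) i j = br G (c i) (c j) := by
  rw [br_eq_dot]
  simp only [Matrix.mul_apply, Matrix.transpose_apply, Matrix.of_apply, dotProduct, mulVec,
    Matrix.map_apply, Finset.sum_mul, Finset.mul_sum]
  rw [Finset.sum_comm]
  refine Finset.sum_congr rfl fun x _ => Finset.sum_congr rfl fun y _ => ?_
  ring

theorem gram_diag (G : M4) (c : Fin 4 → R4) (d : Fin 4 → ℝ) (h : ∀ i, br G (c i) (c i) = d i)
    (h' : ∀ i j, i ≠ j → br G (c i) (c j) = 0) :
    (Matrix.of fun a b => c b a).transpose * G.map (Int.cast : ℤ → ℝ) *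
      (Matrix.of fun a b => c b a) = Matrix.diagonal d := by
  ext i j
  rw [gram_cols]
  by_cases hij : i = j
  · subst hij
    rw [h, Matrix.diagonal_apply_eq]
  · rw [h' i j hij, Matrix.diagonal_apply_ne _ hij]

theorem sigp : SigPStmt := by
  intro G hsy hdet a b c h1 h2 h3
  have hcomm : ∀ x y : R4, br G x y = br G y x := fun x y => br_comm hsy x y
  obtain ⟨v, hv0, hv⟩ := H51.sol (G := G) (ι := Fin 3) (by simp) ![up a, up b, up c]
  have va : br G v (up a) = 0 := hv 0
  have vb : br G v (up b) = 0 := hv 1
  have vc : br G v (up c) = 0 := hv 2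
  -- real Gram entries
  set aa := br G (up a) (up a) with haa
  set ab := br G (up a) (up b) with hab
  set ac := br G (up a) (up c) with hac
  set bb := br G (up b) (up b) with hbb
  set bc := br G (up b) (up c) with hbc
  set cc := br G (up c) (up c) with hcc
  have eba : br G (up b) (up a) = ab := hcomm _ _
  have eca : br G (up c) (up a) = ac := hcomm _ _
  have ecb : br G (up c) (up b) = bc := hcomm _ _
  have p1 : 0 < aa := by
    rw [haa, br_up]; exact_mod_cast h1
  have p2 : 0 < aa * bb - ab ^ 2 := by
    have : ((g2 G a b : ℤ) : ℝ) = aa * bb - ab ^ 2 := by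
      rw [haa, hbb, hab, br_up, br_up, br_up]
      unfold g2
      push_cast
      ring
    rw [← this]
    exact_mod_cast h2
  set D2 := aa * bb - ab ^ 2 with hD2
  set D3 := D2 * cc - (bb * ac - ab * bc) * ac - (aa * bc - ab * ac) * bc with hD3
  have p3 : 0 < D3 := by
    have : ((g3 G a b c c : ℤ) : ℝ) = D3 := by
      rw [hD3, hD2, haa, hbb, hab, hac, hbc, hcc]
      simp only [br_up]
      unfold g3
      rw [Matrix.det_fin_three]
      simp
      ring
    rw [← this]
    exact_mod_cast h3
  -- orthogonal vectors
  set B : R4 := aa • up b - ab • up a with hB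
  set C : R4 := D2 • up c - (bb * ac - ab * bc) • up a - (aa * bc - ab * ac) • up b with hC
  have Ba : br G B (up a) = 0 := by
    rw [hB, br_sub_left, br_smul_left, br_smul_left, eba, ← haa]; ring
  have Bb : br G B (up b) = D2 := by
    rw [hB, br_sub_left, br_smul_left, br_smul_left, ← hbb, ← hab, hD2]; ring
  have BB : br G B B = aa * D2 := by
    conv_lhs => rw [hB]
    rw [br_sub_left, br_smul_left, br_smul_left, hcomm (up b) B, hcomm (up a) B, Ba, Bb]; ring
  have Ca : br G C (up a) = 0 := by
    rw [hC, br_sub_left, br_sub_left, br_smul_left, br_smul_left, br_smul_left, eca, eba, ← haa,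
      hD2]; ring
  have Cb : br G C (up b) = 0 := by
    rw [hC, br_sub_left, br_sub_left, br_smul_left, br_smul_left, br_smul_left, ecb, ← hab, ← hbb,
      hD2]; ring
  have Cc : br G C (up c) = D3 := by
    rw [hC, br_sub_left, br_sub_left, br_smul_left, br_smul_left, br_smul_left, ← hcc, ← hac,
      ← hbc, hD3]
  have CC : br G C C = D2 * D3 := by
    conv_lhs => rw [hC]
    rw [br_sub_left, br_sub_left, br_smul_left, br_smul_left, br_smul_left, hcomm (up c) C,
      hcomm (up a) C, hcomm (up b) C, Ca, Cb, Cc]; ring
  have CB : br G C B = 0 := by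
    rw [hB, br_sub_right, br_smul_right, br_smul_right, Ca, Cb]; ring
  have vB : br G v B = 0 := by
    rw [hB, br_sub_right, br_smul_right, br_smul_right, va, vb]; ring
  have vC : br G v C = 0 := by
    rw [hC, br_sub_right, br_sub_right, br_smul_right, br_smul_right, br_smul_right, va, vb, vc]
    ring
  have pB : 0 < br G B B := by rw [BB]; positivity
  have pC : 0 < br G C C := by rw [CC]; positivity
  -- the first matrix
  have hgen : ∀ (s : Fin 4 → ℝ), ∀ i j : Fin 4, i ≠ j →
      br G (s i • (![up a, B, C, v] : Fin 4 → R4) i) (s j • (![up a, B, C, v] : Fin 4 → R4) j)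
        = 0 := by
    intro s i j hij
    rw [br_smul_left, br_smul_right]
    have hz : br G ((![up a, B, C, v] : Fin 4 → R4) i) ((![up a, B, C, v] : Fin 4 → R4) j) = 0 := by
      fin_cases i <;> fin_cases j <;> first
        | exact absurd rfl hij
        | exact Ba
        | exact Ca
        | exact CB
        | exact va
        | exact vB
        | exact vC
        | (exact (hcomm _ _).trans Ba)
        | (exact (hcomm _ _).trans Ca)
        | (exact (hcomm _ _).trans CB)
        | (exact (hcomm _ _).trans va)
        | (exact (hcomm _ _).trans vB)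
        | (exact (hcomm _ _).trans vC)
    rw [hz]; ring
  have hdetR : (G.map (Int.cast : ℤ → ℝ)).det < 0 := by
    have h2 : (G.map (Int.cast : ℤ → ℝ)).det = (G.det : ℝ) :=
      ((Int.castRingHom ℝ).map_det G).symm
    rw [h2]
    exact_mod_cast hdet
  have hvneg : br G v v < 0 := by
    set P : Matrix (Fin 4) (Fin 4) ℝ := Matrix.of fun x y => (![up a, B, C, v] : Fin 4 → R4) y x
      with hP
    have hd := gram_diag G ![up a, B, C, v] ![aa, br G B B, br G C C, br G v v] (by
      intro i; fin_cases i <;> rfl) (by
      intro i j hij
      have := hgen (fun _ => 1) i j hij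
      simpa using this)
    rw [← hP] at hd
    have hd' := congrArg Matrix.det hd
    rw [Matrix.det_mul, Matrix.det_mul, Matrix.det_transpose, Matrix.det_diagonal,
      Fin.prod_univ_four] at hd'
    simp at hd'
    have hP0 : P.det ≠ 0 := by
      intro h0
      obtain ⟨w, hw0, hw⟩ := Matrix.exists_mulVec_eq_zero_iff.2 h0
      have hw2 : (Matrix.diagonal ![aa, br G B B, br G C C, br G v v]).mulVec w = 0 := by
        rw [← hd, ← Matrix.mulVec_mulVec, hw, Matrix.mulVec_zero]
      have w0 : w 0 = 0 := by
        have := congrFun hw2 0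
        simp [Matrix.mulVec_diagonal] at this
        rcases this with h | h
        · exact absurd h p1.ne'
        · exact h
      have w1 : w 1 = 0 := by
        have := congrFun hw2 1
        simp [Matrix.mulVec_diagonal] at this
        rcases this with h | h
        · exact absurd h pB.ne'
        · exact h
      have w2 : w 2 = 0 := by
        have := congrFun hw2 2
        simp [Matrix.mulVec_diagonal] at this
        rcases this with h | h
        · exact absurd h pC.ne'
        · exact h
      have hw3 : ∀ i, v i * w 3 = 0 := by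
        intro i
        have := congrFun hw i
        simp [hP, Matrix.mulVec, dotProduct, Fin.sum_univ_four, w0, w1, w2] at this
        rcases this with h | h
        · rw [h]; ring
        · rw [h]; ring
      have w3 : w 3 = 0 := by
        by_contra hne
        apply hv0
        funext i
        rcases mul_eq_zero.1 (hw3 i) with h | h
        · exact h
        · exact absurd h hne
      apply hw0
      funext i
      fin_cases i
      · exact w0
      · exact w1
      · exact w2
      · exact w3
    have hsq : 0 < P.det ^ 2 := by positivity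
    have hneg : P.det * (G.map (Int.cast : ℤ → ℝ)).det * P.det < 0 := by
      have : P.det * (G.map (Int.cast : ℤ → ℝ)).det * P.det
        = P.det ^ 2 * (G.map (Int.cast : ℤ → ℝ)).det := by ring
      rw [this]
      exact mul_neg_of_pos_of_neg hsq hdetR
    have hd'' : aa * br G B B * br G C C * br G v v < 0 := by
      rw [← hd']
      exact hneg
    by_contra hcon
    have : 0 ≤ aa * br G B B * br G C C * br G v v := by
      have := not_lt.1 hcon
      positivity
    linarith
  -- scaling
  set s : Fin 4 → ℝ := ![1 / Real.sqrt aa, 1 / Real.sqrt (br G B B), 1 / Real.sqrt (br G C C),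
    1 / Real.sqrt (-br G v v)] with hs
  have hsc : ∀ x : ℝ, 0 < x → 1 / Real.sqrt x * (1 / Real.sqrt x * x) = 1 := by
    intro x hx
    have hx1 : Real.sqrt x ≠ 0 := (Real.sqrt_pos.2 hx).ne'
    field_simp
    exact (Real.sq_sqrt hx.le).symm
  have hd := gram_diag G (fun i => s i • (![up a, B, C, v] : Fin 4 → R4) i) ![1, 1, 1, -1] (by
    intro i
    rw [br_smul_left, br_smul_right]
    fin_cases i
    · exact hsc aa p1
    · exact hsc _ pB
    · exact hsc _ pC
    · have := hsc (-br G v v) (by linarith)
      show 1 / Real.sqrt (-br G v v) * (1 / Real.sqrt (-br G v v) * br G v v) = -1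
      linarith) (hgen s)
  refine ⟨_, ?_, hd⟩
  rw [isUnit_iff_ne_zero]
  intro h0
  have hd' := congrArg Matrix.det hd
  rw [Matrix.det_mul, Matrix.det_mul, Matrix.det_transpose, h0, Matrix.det_diagonal,
    Fin.prod_univ_four] at hd'
  simp at hd'

end Pool.Agent.Refl.H18C
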