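import Pool.Agent.Helper18_Refl.Tools
import Pool.Agent.Helper18_Refl.Avoid

/-!
Squad REFL (MP_c70e36_gt): module START, a locally exact vertex is a vertex of a chamber.
-/

namespace Pool.Agent.Refl.H18

open Matrix Set

/-- Facet roots of the cone contain `a` when `a` is extremal near the edge. -/
theorem edge_root {G : M4} (hG : Lat G) {n : ℕ} {e : Fin n → Z4} {O : R4} (hC : Cham G n e O)
    {a b : Z4} (ha : IsRoot G a) (hg2 : 0 < g2 G a b) {V W : R4}
    (hVa : br G V (up a) = 0) (hWa : br G W (up a) = 0)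
    (hOa : br G O (up a) < 0) (hOb : br G O (up b) < 0)
    (hVm : ∀ m, br G V (up (e m)) ≤ 0)
    (hWm : ∀ m, br G V (up (e m)) = 0 → br G W (up (e m)) ≤ 0)
    (hspan : ∀ r : Z4, IsRoot G r → br G V (up r) = 0 → br G W (up r) = 0 →
      ∃ D α β : ℤ, 0 < D ∧ D • r = α • a + β • b)
    (H1 : ∀ r : Z4, IsRoot G r → ∀ D α β : ℤ, 0 < D → D • r = α • a + β • b →
      (0 ≤ α ∧ 0 ≤ β) ∨ (α ≤ 0 ∧ β ≤ 0)) : ∃ m, e m = a := by
  -- a is nonpositive on the cone
  have hOK : ∀ i, br G O (up (e i)) ≤ 0 := fun i => (hC.neg i).le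
  have hK : ∀ x : R4, (∀ i, br G x (up (e i)) ≤ 0) → br G x (up a) ≤ 0 := by
    rcases hC.sep a ha with h | h
    · exact h
    · exact absurd (h O hOK) (not_le.2 hOa)
  obtain ⟨c, hc0, hc⟩ := farkas hG (fun i => up (e i)) O hC.neg (up a) hOa hK
  -- only facets through the edge contribute
  have hcV : ∀ i, c i ≠ 0 → br G V (up (e i)) = 0 := by
    have h1 : ∑ i, c i * br G V (up (e i)) = 0 := by
      have h2 : br G V (up a) = ∑ i, c i * br G V (up (e i)) := by
        rw [hc, br_sum_right]
        exact Finset.sum_congr rfl fun i _ => br_smul_right _ _ _ _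
      rw [← h2, hVa]
    have h3 := (Finset.sum_eq_zero_iff_of_nonpos (fun i _ =>
      mul_nonpos_of_nonneg_of_nonpos (hc0 i) (hVm i))).1 h1
    intro i hi
    rcases mul_eq_zero.1 (h3 i (Finset.mem_univ i)) with h | h
    · exact absurd h hi
    · exact h
  have hcW : ∀ i, c i ≠ 0 → br G W (up (e i)) = 0 := by
    have h1 : ∑ i, c i * br G W (up (e i)) = 0 := by
      have h2 : br G W (up a) = ∑ i, c i * br G W (up (e i)) := by
        rw [hc, br_sum_right]
        exact Finset.sum_congr rfl fun i _ => br_smul_right _ _ _ _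
      rw [← h2, hWa]
    have h3 := (Finset.sum_eq_zero_iff_of_nonpos (fun i _ => by
      by_cases hi : c i = 0
      · rw [hi, zero_mul]
      · exact mul_nonpos_of_nonneg_of_nonpos (hc0 i) (hWm i (hcV i hi)))).1 h1
    intro i hi
    rcases mul_eq_zero.1 (h3 i (Finset.mem_univ i)) with h | h
    · exact absurd h hi
    · exact h
  -- coefficients
  have hco : ∀ i, c i ≠ 0 → ∃ D α β : ℤ, 0 < D ∧ D • e i = α • a + β • b ∧ 0 ≤ α ∧ 0 ≤ β := by
    intro i hi
    obtain ⟨D, α, β, hD, hrel⟩ := hspan (e i) (hC.root i) (hcV i hi) (hcW i hi)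
    refine ⟨D, α, β, hD, hrel, ?_⟩
    rcases H1 (e i) (hC.root i) D α β hD hrel with h | h
    · exact h
    · exfalso
      have h1 : (D : ℝ) * br G O (up (e i)) = α * br G O (up a) + β * br G O (up b) := by
        have h2 : up (D • e i) = up (α • a + β • b) := by rw [hrel]
        rw [up_smul, up_add, up_smul, up_smul] at h2
        have h3 := congrArg (br G O) h2
        rwa [br_smul_right, br_add_right, br_smul_right, br_smul_right] at h3
      have h4 : (0 : ℝ) < D := by exact_mod_cast hD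
      have h5 : (α : ℝ) ≤ 0 := by exact_mod_cast h.1
      have h6 : (β : ℝ) ≤ 0 := by exact_mod_cast h.2
      have h7 := mul_neg_of_pos_of_neg h4 (hC.neg i)
      have h8 := mul_nonneg_of_nonpos_of_nonpos h5 hOa.le
      have h9 := mul_nonneg_of_nonpos_of_nonpos h6 hOb.le
      linarith
  -- the dual vector killing a
  set w : Z4 := bz G a b • a - bz G a a • b with hw
  have hwa : bz G w a = 0 := by
    rw [hw, bz_sub_left, bz_smul_left, bz_smul_left, hG.zcomm b a]; ring
  have hwb : bz G w b = - g2 G a b := by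
    rw [hw, bz_sub_left, bz_smul_left, bz_smul_left, g2]; ring
  have hwe : ∀ i, c i ≠ 0 → br G (up w) (up (e i)) ≤ 0 := by
    intro i hi
    obtain ⟨D, α, β, hD, hrel, hα, hβ⟩ := hco i hi
    have h1 : D * bz G w (e i) = β * (- g2 G a b) := by
      have h2 := congrArg (bz G w) hrel
      rw [bz_smul_right, bz_add_right, bz_smul_right, bz_smul_right, hwa, hwb] at h2
      linarith
    have h3 : bz G w (e i) ≤ 0 := by
      by_contra hcon
      have h4 : 0 < D * bz G w (e i) := mul_pos hD (by omega)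
      have h5 : 0 ≤ β * g2 G a b := mul_nonneg hβ hg2.le
      rw [h1] at h4
      linarith
    rw [br_up]
    exact_mod_cast h3
  have hcw : ∀ i, c i ≠ 0 → br G (up w) (up (e i)) = 0 := by
    have h1 : ∑ i, c i * br G (up w) (up (e i)) = 0 := by
      have h2 : br G (up w) (up a) = ∑ i, c i * br G (up w) (up (e i)) := by
        rw [hc, br_sum_right]
        exact Finset.sum_congr rfl fun i _ => br_smul_right _ _ _ _
      rw [← h2, br_up, hwa]
      simp
    have h3 := (Finset.sum_eq_zero_iff_of_nonpos (fun i _ => by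
      by_cases hi : c i = 0
      · rw [hi, zero_mul]
      · exact mul_nonpos_of_nonneg_of_nonpos (hc0 i) (hwe i hi))).1 h1
    intro i hi
    rcases mul_eq_zero.1 (h3 i (Finset.mem_univ i)) with h | h
    · exact absurd h hi
    · exact h
  -- some coefficient is nonzero
  have hex : ∃ i, c i ≠ 0 := by
    by_contra hcon
    push Not at hcon
    have h1 : up a = 0 := by
      rw [hc]
      exact Finset.sum_eq_zero fun i _ => by rw [hcon i, zero_smul]
    exact ha.ne_zero (up_eq_zero.1 h1)
  obtain ⟨i, hi⟩ := hex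
  obtain ⟨D, α, β, hD, hrel, hα, hβ⟩ := hco i hi
  have h1 : bz G w (e i) = 0 := by
    have := hcw i hi
    rw [br_up] at this
    exact_mod_cast this
  have hβ0 : β = 0 := by
    have h2 := congrArg (bz G w) hrel
    rw [bz_smul_right, bz_add_right, bz_smul_right, bz_smul_right, hwa, hwb, h1] at h2
    have h3 : β * g2 G a b = 0 := by linarith
    rcases mul_eq_zero.1 h3 with h | h
    · exact h
    · omega
  rw [hβ0, zero_smul, add_zero] at hrel
  have hα0 : 0 < α := by
    rcases hα.lt_or_eq with h | h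
    · exact h
    · exfalso
      rw [← h, zero_smul] at hrel
      have h2 : e i = 0 := by
        rcases smul_eq_zero.1 hrel with h | h
        · omega
        · exact h
      exact (hC.root i).ne_zero h2
  exact ⟨i, root_eq_of_par ha (hC.root i) hD hα0 hrel⟩

/-- START -/
theorem start (hcham : ChamStmt) (hgen : GenStmt) (hdvd : RootDvdStmt) (hfin : FinVecStmt) :
    StartStmt := by
  intro G hG hR a b c ha hb hc hab hac hbc hg2 hg3 H1 H2
  classical
  have hdet := hG.det_neg
  set V0 : Z4 := vv G a b c with hV0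
  have hVx : ∀ x : Z4, bz G V0 x = G.det * d4 a b c x := fun x => bz_vv hG a b c x
  have hVVz : bz G V0 V0 < 0 := vv_neg hG hg3
  set V : R4 := up V0 with hVdef
  have hVV : br G V V < 0 := by rw [hVdef, br_up]; exact_mod_cast hVVz
  have hVup : ∀ x : Z4, br G V (up x) = ((G.det * d4 a b c x : ℤ) : ℝ) := by
    intro x; rw [hVdef, br_up, hVx]
  have hVa : bz G V0 a = 0 := by rw [hVx, d4_a, mul_zero]
  have hVb : bz G V0 b = 0 := by rw [hVx, d4_b, mul_zero]
  have hVc : bz G V0 c = 0 := by rw [hVx, d4_c, mul_zero]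
  have hba : bz G b a = bz G a b := hG.zcomm _ _
  have hca : bz G c a = bz G a c := hG.zcomm _ _
  have hcb : bz G c b = bz G b c := hG.zcomm _ _
  have hg2e : g2 G a b = bz G a a * bz G b b - bz G a b ^ 2 := rfl
  -- projection data
  have proj : ∀ r : Z4, ∃ α β : ℤ, bz G (g2 G a b • r - α • a - β • b) a = 0 ∧
      bz G (g2 G a b • r - α • a - β • b) b = 0 ∧
      α = bz G r a * bz G b b - bz G r b * bz G a b ∧
      β = bz G r b * bz G a a - bz G r a * bz G a b := by
    intro r
    refine ⟨_, _, ?_, ?_, rfl, rfl⟩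
    · rw [bz_sub_left, bz_sub_left, bz_smul_left, bz_smul_left, bz_smul_left, hba, hg2e]; ring
    · rw [bz_sub_left, bz_sub_left, bz_smul_left, bz_smul_left, bz_smul_left, hg2e]; ring
  obtain ⟨αc, βc, hpa, hpb, hαc, hβc⟩ := proj c
  set W0 : Z4 := -(g2 G a b • c - αc • a - βc • b) with hW0
  have hWa : bz G W0 a = 0 := by rw [hW0, bz_neg_left, hpa, neg_zero]
  have hWb : bz G W0 b = 0 := by rw [hW0, bz_neg_left, hpb, neg_zero]
  have hWc : bz G W0 c = - g3 G a b c c := by
    rw [hW0, bz_neg_left, bz_sub_left, bz_sub_left, bz_smul_left, bz_smul_left, bz_smul_left,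
      hαc, hβc, hg2e, hca, hcb]
    simp only [g3, Matrix.det_fin_three, Matrix.of_apply, Matrix.cons_val', Matrix.cons_val_zero,
      Matrix.cons_val_one, Matrix.cons_val, Matrix.cons_val_fin_one]
    ring
  set U0 : Z4 := -((bz G b b - bz G a b) • a + (bz G a a - bz G a b) • b) with hU0
  have hUa : bz G U0 a = - g2 G a b := by
    rw [hU0, bz_neg_left, bz_add_left, bz_smul_left, bz_smul_left, hba, hg2e]; ring
  have hUb : bz G U0 b = - g2 G a b := by
    rw [hU0, bz_neg_left, bz_add_left, bz_smul_left, bz_smul_left, hg2e]; ring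
  have hspan : ∀ r : Z4, IsRoot G r → br G V (up r) = 0 → br G (up W0) (up r) = 0 →
      ∃ D α β : ℤ, 0 < D ∧ D • r = α • a + β • b := by
    intro r _ hVr hWr
    have hVr' : bz G V0 r = 0 := by rw [hVdef, br_up] at hVr; exact_mod_cast hVr
    have hWr' : bz G W0 r = 0 := by rw [br_up] at hWr; exact_mod_cast hWr
    obtain ⟨α, β, h1, h2, -, -⟩ := proj r
    refine ⟨g2 G a b, α, β, hg2, ?_⟩
    set z : Z4 := g2 G a b • r - α • a - β • b with hz
    have hzW : bz G W0 z = 0 := by
      rw [hz, bz_sub_right, bz_sub_right, bz_smul_right, bz_smul_right, bz_smul_right, hWr', hWa,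
        hWb]; ring
    have hzV : bz G V0 z = 0 := by
      rw [hz, bz_sub_right, bz_sub_right, bz_smul_right, bz_smul_right, bz_smul_right, hVr', hVa,
        hVb]; ring
    have hzc : bz G z c = 0 := by
      have h3 : bz G z W0 = 0 := by rw [hG.zcomm]; exact hzW
      rw [hW0, bz_neg_right, bz_sub_right, bz_sub_right, bz_smul_right, bz_smul_right,
        bz_smul_right, h1, h2] at h3
      have h4 : g2 G a b * bz G z c = 0 := by linarith
      rcases mul_eq_zero.1 h4 with h | h
      · omega
      · exact h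
    have hzd : d4 a b c z = 0 := by
      rw [hVx] at hzV
      rcases mul_eq_zero.1 hzV with h | h
      · omega
      · exact h
    have hz0 := eq_zero_of_orth hG hg3 h1 h2 hzc hzd
    have h5 : g2 G a b • r - α • a - β • b = 0 := hz0
    rw [sub_sub, sub_eq_zero] at h5
    exact h5
  have H1' : ∀ r : Z4, IsRoot G r → ∀ D α β : ℤ, 0 < D → D • r = α • b + β • a →
      (0 ≤ α ∧ 0 ≤ β) ∨ (α ≤ 0 ∧ β ≤ 0) := by
    intro r hr D α β hD h
    rcases H1 r hr D β α hD (by rw [h, add_comm]) with h | h
    · exact Or.inl ⟨h.2, h.1⟩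
    · exact Or.inr ⟨h.2, h.1⟩
  -- local data
  obtain ⟨δ0, hδ0, hstab⟩ := stab hG hdvd hfin hVV
  -- roots vanishing at V
  set N : Set Z4 := {r : Z4 | IsRoot G r ∧ br G V (up r) = 0} with hN
  have hNfin : N.Finite := by
    refine (hfin G hG V hVV (max (2 * |(G.det : ℝ)|) 0)).subset ?_
    rintro r ⟨hr, hr0⟩
    refine ⟨?_, ?_⟩
    · have h1 := root_bdd hG hdvd hr
      have h2 : (bz G r r : ℝ) ≤ 2 * |(G.det : ℝ)| := by
        have : ((bz G r r : ℤ) : ℝ) ≤ ((2 * |G.det| : ℤ) : ℝ) := by exact_mod_cast h1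
        simpa using this
      exact h2.trans (le_max_left _ _)
    · rw [hr0, abs_zero]; exact le_max_right _ _
  -- delta
  obtain ⟨δ, hδ, hδN⟩ : ∃ δ : ℝ, 0 < δ ∧ ∀ r ∈ N, bz G W0 r < 0 →
      (bz G W0 r : ℝ) + δ * bz G U0 r < 0 := by
    obtain ⟨M, hM⟩ := (hNfin.image (fun r => |(bz G U0 r : ℝ)|)).bddAbove
    refine ⟨1 / (2 * (|M| + 1)), by positivity, fun r hr hW => ?_⟩
    have h1 : |(bz G U0 r : ℝ)| ≤ M := hM ⟨r, hr, rfl⟩
    have h2 : (bz G U0 r : ℝ) ≤ |M| + 1 := by
      have := le_abs_self (bz G U0 r : ℝ)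
      have := le_abs_self M
      linarith
    have h3 : (bz G W0 r : ℝ) ≤ -1 := by
      have : bz G W0 r ≤ -1 := by omega
      exact_mod_cast this
    have h4 : 0 < |M| + 1 := by positivity
    have h5 : 1 / (2 * (|M| + 1)) * (bz G U0 r : ℝ) ≤ 1 / 2 := by
      calc 1 / (2 * (|M| + 1)) * (bz G U0 r : ℝ) ≤ 1 / (2 * (|M| + 1)) * (|M| + 1) :=
            mul_le_mul_of_nonneg_left h2 (by positivity)
        _ = 1 / 2 := by field_simp
    linarith
  -- the open set of good base points
  set P : Set R4 := {x | (∀ i, |x i - V i| < δ0) ∧ (∀ r ∈ N, bz G W0 r < 0 → br G x (up r) < 0) ∧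
    br G x (up a) < 0 ∧ br G x (up b) < 0 ∧ br G x x < 0} with hP
  have hPopen : IsOpen P := by
    have h1 : IsOpen {x : R4 | ∀ i, |x i - V i| < δ0} := by
      have : {x : R4 | ∀ i, |x i - V i| < δ0} = ⋂ i, {x : R4 | |x i - V i| < δ0} := by
        ext x; simp
      rw [this]
      refine isOpen_iInter_of_finite fun i => ?_
      exact isOpen_lt (by fun_prop) continuous_const
    have h2 : IsOpen {x : R4 | ∀ r ∈ N, bz G W0 r < 0 → br G x (up r) < 0} := by
      have : {x : R4 | ∀ r ∈ N, bz G W0 r < 0 → br G x (up r) < 0} =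
          ⋂ r ∈ N, {x : R4 | bz G W0 r < 0 → br G x (up r) < 0} := by
        ext x; simp
      rw [this]
      refine hNfin.isOpen_biInter fun r _ => ?_
      by_cases hr : bz G W0 r < 0
      · have : {x : R4 | bz G W0 r < 0 → br G x (up r) < 0} = {x : R4 | br G x (up r) < 0} := by
          ext x; simp [hr]
        rw [this]
        exact isOpen_lt (br_continuous_left G _) continuous_const
      · have : {x : R4 | bz G W0 r < 0 → br G x (up r) < 0} = univ := by
          ext x; simp [hr]
        rw [this]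
        exact isOpen_univ
    have h3 : IsOpen {x : R4 | br G x (up a) < 0} :=
      isOpen_lt (br_continuous_left G _) continuous_const
    have h4 : IsOpen {x : R4 | br G x (up b) < 0} :=
      isOpen_lt (br_continuous_left G _) continuous_const
    have h5 : IsOpen {x : R4 | br G x x < 0} :=
      isOpen_lt (br_continuous_diag G) continuous_const
    exact h1.inter (h2.inter (h3.inter (h4.inter h5)))
  obtain ⟨x0, hx0⟩ : P.Nonempty := by
    -- x0 = V + t (W0 + δ U0), t small
    set Y : R4 := up W0 + δ • up U0 with hY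
    have hsmall : ∀ᶠ t : ℝ in nhdsWithin 0 (Ioi 0), (∀ i, |(V + t • Y) i - V i| < δ0) ∧
        br G (V + t • Y) (V + t • Y) < 0 := by
      have hcont : Continuous fun t : ℝ => V + t • Y := by fun_prop
      have h0 : V + (0 : ℝ) • Y = V := by simp
      have hopen : IsOpen {x : R4 | (∀ i, |x i - V i| < δ0) ∧ br G x x < 0} := by
        have h1 : IsOpen {x : R4 | ∀ i, |x i - V i| < δ0} := by
          have : {x : R4 | ∀ i, |x i - V i| < δ0} = ⋂ i, {x : R4 | |x i - V i| < δ0} := by
            ext x; simp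
          rw [this]
          refine isOpen_iInter_of_finite fun i => ?_
          exact isOpen_lt (by fun_prop) continuous_const
        exact h1.inter (isOpen_lt (br_continuous_diag G) continuous_const)
      have hmem : V + (0 : ℝ) • Y ∈ {x : R4 | (∀ i, |x i - V i| < δ0) ∧ br G x x < 0} := by
        rw [h0]
        exact ⟨fun i => by simpa using hδ0, hVV⟩
      exact nhdsWithin_le_nhds ((hcont.tendsto 0).eventually (hopen.mem_nhds hmem))
    obtain ⟨t, ⟨ht1, ht2⟩, ht⟩ := (hsmall.and self_mem_nhdsWithin).exists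
    have ht0 : 0 < t := ht
    have hbr : ∀ r : Z4, br G (V + t • Y) (up r) =
        (bz G V0 r : ℝ) + t * ((bz G W0 r : ℝ) + δ * bz G U0 r) := by
      intro r
      rw [br_add_left, br_smul_left, hY, br_add_left, br_smul_left, hVdef, br_up, br_up, br_up]
    refine ⟨V + t • Y, ht1, fun r hr hW => ?_, ?_, ?_, ht2⟩
    · rw [hbr]
      have h1 : (bz G V0 r : ℝ) = 0 := by
        have := hr.2
        rwa [hVdef, br_up] at this
      rw [h1, zero_add]
      exact mul_neg_of_pos_of_neg ht0 (hδN r hr hW)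
    · rw [hbr, hVa, hWa, hUa]
      have : (0 : ℝ) < ((g2 G a b : ℤ) : ℝ) := by exact_mod_cast hg2
      push_cast
      have h2 : 0 < t * (δ * ((g2 G a b : ℤ) : ℝ)) := by positivity
      linarith
    · rw [hbr, hVb, hWb, hUb]
      have : (0 : ℝ) < ((g2 G a b : ℤ) : ℝ) := by exact_mod_cast hg2
      push_cast
      have h2 : 0 < t * (δ * ((g2 G a b : ℤ) : ℝ)) := by positivity
      linarith
  obtain ⟨ρ, hρ, hρP⟩ := Metric.isOpen_iff.1 hPopen x0 hx0
  obtain ⟨O, hO1, hO2, hO3⟩ := hgen G hG x0 (ρ / 2) hx0.2.2.2.2 (by positivity)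
  have hOP : O ∈ P := by
    apply hρP
    rw [mem_ball_iff_norm]
    refine lt_of_le_of_lt ((pi_norm_le_iff_of_nonneg (by positivity : (0 : ℝ) ≤ ρ / 2)).2
      fun i => (hO1 i).le) (half_lt_self hρ)
  obtain ⟨hOV, hON, hOa, hOb, hOO⟩ := hOP
  obtain ⟨n, e, hC⟩ := hcham G hG hR O hO2 hO3
  have hVm : ∀ m, br G V (up (e m)) ≤ 0 := by
    intro m
    by_contra hcon
    push Not at hcon
    have h1 := hstab O (fun i => (hOV i).le) (-e m) (hC.root m).neg (by
      rw [up_neg, br_neg_right]; linarith)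
    rw [up_neg, br_neg_right] at h1
    have h2 := hC.neg m
    linarith
  have hWm : ∀ m, br G V (up (e m)) = 0 → br G (up W0) (up (e m)) ≤ 0 := by
    intro m hm
    by_contra hcon
    push Not at hcon
    have h0 : 0 < bz G W0 (e m) := by rw [br_up] at hcon; exact_mod_cast hcon
    have h1 := hON (-e m) ⟨(hC.root m).neg, by rw [up_neg, br_neg_right, hm, neg_zero]⟩
      (by rw [bz_neg_right]; omega)
    rw [up_neg, br_neg_right] at h1
    have h2 := hC.neg m
    linarith
  have hVa' : br G V (up a) = 0 := by rw [hVdef, br_up, hVa]; simp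
  have hVb' : br G V (up b) = 0 := by rw [hVdef, br_up, hVb]; simp
  have hVc' : br G V (up c) = 0 := by rw [hVdef, br_up, hVc]; simp
  have hWa' : br G (up W0) (up a) = 0 := by rw [br_up, hWa]; simp
  have hWb' : br G (up W0) (up b) = 0 := by rw [br_up, hWb]; simp
  have hOc : br G O (up c) < 0 := hON c ⟨hc, hVc'⟩ (by rw [hWc]; omega)
  obtain ⟨i, hi⟩ := edge_root hG hC ha hg2 hVa' hWa' hOa hOb hVm hWm hspan H1
  have hg2' : 0 < g2 G b a := by
    have : g2 G b a = g2 G a b := by
      rw [hg2e]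
      show bz G b b * bz G a a - bz G b a ^ 2 = _
      rw [hba]; ring
    rw [this]; exact hg2
  obtain ⟨j, hj⟩ := edge_root hG hC hb hg2' hVb' hWb' hOb hOa hVm hWm (fun r hr h1 h2 => by
    obtain ⟨D, α, β, hD, h⟩ := hspan r hr h1 h2
    exact ⟨D, β, α, hD, by rw [h, add_comm]⟩) H1'
  have hij : i ≠ j := by
    rintro rfl
    have h1 : a = b := by rw [← hi, ← hj]
    rw [← h1] at hab
    have := ha.pos
    omega
  -- the third facet
  have hOK : ∀ i, br G O (up (e i)) ≤ 0 := fun i => (hC.neg i).le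
  have hKc : ∀ x : R4, (∀ i, br G x (up (e i)) ≤ 0) → br G x (up c) ≤ 0 := by
    rcases hC.sep c hc with h | h
    · exact h
    · exact absurd (h O hOK) (not_le.2 hOc)
  obtain ⟨k, hki, hkj, hVk⟩ : ∃ k, k ≠ i ∧ k ≠ j ∧ br G V (up (e k)) = 0 := by
    obtain ⟨cc, hc0, hcc⟩ := farkas hG (fun i => up (e i)) O hC.neg (up c) hOc hKc
    by_contra hcon
    push Not at hcon
    have hcV : ∀ m, cc m ≠ 0 → br G V (up (e m)) = 0 := by
      have h1 : ∑ i, cc i * br G V (up (e i)) = 0 := by
        have h2 : br G V (up c) = ∑ i, cc i * br G V (up (e i)) := by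
          rw [hcc, br_sum_right]
          exact Finset.sum_congr rfl fun i _ => br_smul_right _ _ _ _
        rw [← h2, hVc']
      have h3 := (Finset.sum_eq_zero_iff_of_nonpos (fun i _ =>
        mul_nonpos_of_nonneg_of_nonpos (hc0 i) (hVm i))).1 h1
      intro m hm
      rcases mul_eq_zero.1 (h3 m (Finset.mem_univ m)) with h | h
      · exact absurd h hm
      · exact h
    have hsum : up c = cc i • up a + cc j • up b := by
      rw [hcc]
      rw [← Finset.sum_subset (s₁ := {i, j}) (Finset.subset_univ _), Finset.sum_pair hij, hi, hj]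
      intro m _ hm
      rw [Finset.mem_insert, Finset.mem_singleton, not_or] at hm
      by_cases h0 : cc m = 0
      · rw [h0, zero_smul]
      · exact absurd (hcV m h0) (hcon m hm.1 hm.2)
    -- W0 is orthogonal to c, contradiction
    have h1 : br G (up W0) (up c) = 0 := by
      rw [hsum, br_add_right, br_smul_right, br_smul_right, hWa', hWb']; ring
    rw [br_up, hWc] at h1
    have h2 : - g3 G a b c c = 0 := by exact_mod_cast h1
    omega
  have hfour : ∀ r1 r2 r3 r4 : Z4, br G V (up r1) = 0 → br G V (up r2) = 0 →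
      br G V (up r3) = 0 → br G V (up r4) = 0 → bz G r1 r2 ≤ 0 → bz G r1 r3 ≤ 0 →
      bz G r1 r4 ≤ 0 → bz G r2 r3 ≤ 0 → bz G r2 r4 ≤ 0 → bz G r3 r4 ≤ 0 →
      br G O (up r1) < 0 → br G O (up r2) < 0 → br G O (up r3) < 0 → br G O (up r4) < 0 →
      False := by
    intro r1 r2 r3 r4 v1 v2 v3 v4 b12 b13 b14 b23 b24 b34 o1 o2 o3 o4
    have cv : ∀ {x y : Z4}, bz G x y ≤ 0 → br G (up x) (up y) ≤ 0 := by
      intro x y h
      rw [br_up]; exact_mod_cast h
    have cv' : ∀ {x y : Z4}, bz G x y ≤ 0 → br G (up y) (up x) ≤ 0 := by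
      intro x y h
      rw [hG.bcomm]; exact cv h
    refine no_four hG (O := O) hVV ![up r1, up r2, up r3, up r4] ?_ ?_ ?_
    · intro s
      fin_cases s <;> assumption
    · intro s t hst
      fin_cases s <;> fin_cases t <;> first
        | exact absurd rfl hst
        | exact cv b12
        | exact cv b13
        | exact cv b14
        | exact cv b23
        | exact cv b24
        | exact cv b34
        | exact cv' b12
        | exact cv' b13
        | exact cv' b14
        | exact cv' b23
        | exact cv' b24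
        | exact cv' b34
    · intro s
      fin_cases s <;> assumption
  have hobt : ∀ x y, x ≠ y → bz G (e x) (e y) ≤ 0 := hC.obt
  have hkc : e k = c := by
    by_contra hne
    have hd : d4 a b c (e k) = 0 := by
      rw [hVup] at hVk
      have h1 : G.det * d4 a b c (e k) = 0 := by exact_mod_cast hVk
      rcases mul_eq_zero.1 h1 with h | h
      · omega
      · exact h
    have h1 : bz G (e k) a ≤ 0 := by rw [← hi]; exact hobt k i hki
    have h2 : bz G (e k) b ≤ 0 := by rw [← hj]; exact hobt k j hkj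
    have h3 := H2 (e k) (hC.root k) hne hd h1 h2
    exact hfour (e k) a b c hVk hVa' hVb' hVc' h1 h2 h3 hab hac hbc (hC.neg k) hOa hOb hOc
  refine ⟨n, e, O, i, j, k, hC, hi, hj, hkc, ⟨hij, hkj.symm, hki.symm, V, ?_, hVm, ?_, ?_, hVk⟩,
    ?_⟩
  · intro h
    rw [h] at hVV
    simp at hVV
  · rw [hi]; exact hVa'
  · rw [hj]; exact hVb'
  · intro m hmi hmj hmk
    have h1 : br G V (up (e m)) ≠ 0 := by
      intro h0
      exact hfour (e m) (e i) (e j) (e k) h0 (by rw [hi]; exact hVa') (by rw [hj]; exact hVb')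
        hVk (hobt _ _ hmi) (hobt _ _ hmj) (hobt _ _ hmk) (hobt _ _ hij)
        (hobt _ _ hki.symm) (hobt _ _ hkj.symm) (hC.neg _) (hC.neg _) (hC.neg _) (hC.neg _)
    have h2 : br G V (up (e m)) < 0 := lt_of_le_of_ne (hVm m) h1
    rw [hVup] at h2
    have h3 : G.det * d4 a b c (e m) < 0 := by exact_mod_cast h2
    by_contra hcon
    have h4 : 0 ≤ G.det * d4 a b c (e m) :=
      mul_nonneg_of_nonpos_of_nonpos hdet.le (not_lt.1 hcon)
    omega

end Pool.Agent.Refl.H18
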