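import Pool.Agent.Helper84_Refl.Base2

/-!
Squad REFL (MP_c70e36_gt): tools used in START (Farkas, obtuse families, the vertex vector,
local finiteness of roots near a negative vector).
-/

namespace Pool.Agent.Refl.H18

open Matrix Set

theorem nondeg_rep {G : M4} (hG : Lat G) (f : R4 →ₗ[ℝ] ℝ) : ∃ x : R4, ∀ y, br G x y = f y := by
  let B : R4 →ₗ[ℝ] (R4 →ₗ[ℝ] ℝ) := LinearMap.mk₂ ℝ (br G) (fun x y z => br_add_left G x y z)
    (fun a x y => br_smul_left G a x y) (fun x y z => br_add_right G x y z)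
    (fun a x y => br_smul_right G a x y)
  have hinj : Function.Injective B := by
    rw [injective_iff_map_eq_zero]
    intro x hx
    exact hG.nondeg fun y => by
      have := LinearMap.congr_fun hx y
      simpa [B] using this
  have hdim : Module.finrank ℝ R4 = Module.finrank ℝ (R4 →ₗ[ℝ] ℝ) :=
    (Subspace.dual_finrank_eq (K := ℝ) (V := R4)).symm
  have hsurj : Function.Surjective B :=
    (LinearMap.injective_iff_surjective_of_finrank_eq_finrank hdim).1 hinj
  obtain ⟨x, hx⟩ := hsurj f
  exact ⟨x, fun y => by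
    have := LinearMap.congr_fun hx y
    simpa [B] using this⟩

/-- Farkas lemma for the cone generated by the facet vectors, with an interior point `O`. -/
theorem farkas {G : M4} (hG : Lat G) {n : ℕ} (e : Fin n → R4) (O : R4)
    (hO : ∀ i, br G O (e i) < 0) (v : R4) (hv0 : br G O v < 0)
    (hv : ∀ x : R4, (∀ i, br G x (e i) ≤ 0) → br G x v ≤ 0) :
    ∃ c : Fin n → ℝ, (∀ i, 0 ≤ c i) ∧ v = ∑ i, c i • e i := by
  classical
  have hbpos : ∀ i, 0 < -br G O (e i) := fun i => by have := hO i; linarith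
  set e' : Fin n → R4 := fun i => (-br G O (e i))⁻¹ • e i with he'
  set v' : R4 := (-br G O v)⁻¹ • v with hv'
  have hvpos : 0 < -br G O v := by linarith
  have heO : ∀ i, br G O (e' i) = -1 := by
    intro i
    have h1 := hbpos i
    rw [he']
    simp only
    rw [br_smul_right, inv_mul_eq_div, div_eq_iff h1.ne']
    ring
  have hvO : br G O v' = -1 := by
    rw [hv', br_smul_right, inv_mul_eq_div, div_eq_iff hvpos.ne']
    ring
  let L : (Fin n → ℝ) →ₗ[ℝ] R4 := Fintype.linearCombination ℝ e'
  have hL : ∀ w, L w = ∑ i, w i • e' i := fun w => rfl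
  let S : Set R4 := L '' stdSimplex ℝ (Fin n)
  have hSc : IsCompact S := (isCompact_stdSimplex ℝ (Fin n)).image L.continuous_of_finiteDimensional
  have hSconv : Convex ℝ S := (convex_stdSimplex ℝ (Fin n)).linear_image L
  by_cases hmem : v' ∈ S
  · obtain ⟨w, hw, hwv⟩ := hmem
    refine ⟨fun i => (-br G O v) * (w i * (-br G O (e i))⁻¹), fun i => ?_, ?_⟩
    · have h1 := hw.1 i
      have h2 := hbpos i
      positivity
    · have h1 : v = (-br G O v) • v' := by
        rw [hv', smul_smul, mul_inv_cancel₀ hvpos.ne', one_smul]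
      conv_lhs => rw [h1, ← hwv, hL, Finset.smul_sum]
      refine Finset.sum_congr rfl fun i _ => ?_
      rw [he']
      simp only
      rw [smul_smul, smul_smul]
      congr 1
      ring
  · exfalso
    obtain ⟨f, u, hf1, hf2⟩ := geometric_hahn_banach_point_closed hSconv hSc.isClosed hmem
    -- g x = f x + u (O,x)
    let g : R4 →ₗ[ℝ] ℝ := -((f : R4 →ₗ[ℝ] ℝ) + u • (LinearMap.mk₂ ℝ (br G)
      (fun x y z => br_add_left G x y z) (fun a x y => br_smul_left G a x y)
      (fun x y z => br_add_right G x y z) (fun a x y => br_smul_right G a x y)) O)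
    have hg : ∀ y, g y = -(f y + u * br G O y) := fun y => rfl
    obtain ⟨x, hx⟩ := nondeg_rep hG g
    have h1 : ∀ i, br G x (e i) ≤ 0 := by
      intro i
      have h2 : u < f (e' i) := by
        apply hf2
        refine ⟨Pi.single i 1, ?_, ?_⟩
        · exact single_mem_stdSimplex ℝ i
        · rw [hL]
          rw [Finset.sum_eq_single i]
          · simp
          · intro j _ hj
            simp [hj]
          · intro h; exact absurd (Finset.mem_univ i) h
      have h3 : br G x (e' i) < 0 := by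
        rw [hx, hg, heO]
        linarith
      rw [he'] at h3
      simp only at h3
      rw [br_smul_right] at h3
      have h4 : 0 < (-br G O (e i))⁻¹ := inv_pos.2 (hbpos i)
      by_contra h5
      push Not at h5
      have := mul_nonneg h4.le h5.le
      linarith
    have h2 := hv x h1
    have h3 : 0 < br G x v' := by
      rw [hx, hg, hvO]
      linarith
    rw [hv', br_smul_right] at h3
    have h4 : 0 < (-br G O v)⁻¹ := inv_pos.2 hvpos
    have := mul_nonpos_of_nonneg_of_nonpos h4.le h2
    linarith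

/-- pairwise obtuse vectors orthogonal to a negative vector and on one side of a hyperplane are
linearly independent, so there are at most three of them. -/
theorem no_four {G : M4} (hG : Lat G) {V O : R4} (hV : br G V V < 0) (f : Fin 4 → R4)
    (hVf : ∀ i, br G V (f i) = 0) (hob : ∀ i j, i ≠ j → br G (f i) (f j) ≤ 0)
    (hOf : ∀ i, br G O (f i) < 0) : False := by
  have hnot : ¬ LinearIndependent ℝ f := by
    intro hli
    have hspan : Submodule.span ℝ (Set.range f) = ⊤ :=
      hli.span_eq_top_of_card_eq_finrank (by simp)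
    have h0 : ∀ y, br G V y = 0 := by
      intro y
      have hy : y ∈ Submodule.span ℝ (Set.range f) := by rw [hspan]; trivial
      induction hy using Submodule.span_induction with
      | mem x hx => obtain ⟨i, rfl⟩ := hx; exact hVf i
      | zero => simp
      | add x y _ _ hx hy => rw [br_add_right, hx, hy, add_zero]
      | smul a x _ hx => rw [br_smul_right, hx, mul_zero]
    have hV0 := hG.nondeg h0
    rw [hV0] at hV
    simp at hV
  rw [Fintype.not_linearIndependent_iff] at hnot
  obtain ⟨c, hc, i0, hi0⟩ := hnot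
  set u : R4 := ∑ i, max (c i) 0 • f i with hu
  have hu2 : u = ∑ i, max (-c i) 0 • f i := by
    have h1 : u - ∑ i, max (-c i) 0 • f i = 0 := by
      rw [hu, ← Finset.sum_sub_distrib, ← hc]
      refine Finset.sum_congr rfl fun i _ => ?_
      rw [← sub_smul]
      congr 1
      rcases le_total 0 (c i) with h | h
      · rw [max_eq_left h, max_eq_right (by linarith)]; ring
      · rw [max_eq_right h, max_eq_left (by linarith)]; ring
    exact sub_eq_zero.1 h1
  have huu : br G u u ≤ 0 := by
    have h1 : br G u u = ∑ i, ∑ j, max (c i) 0 * max (-c j) 0 * br G (f i) (f j) := by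
      conv_lhs => rw [hu2]
      rw [br_sum_right, ← hu2]
      rw [Finset.sum_comm]
      refine Finset.sum_congr rfl fun j _ => ?_
      rw [br_smul_right, hu, br_sum_left, Finset.mul_sum]
      refine Finset.sum_congr rfl fun i _ => ?_
      rw [br_smul_left]
      ring
    rw [h1]
    refine Finset.sum_nonpos fun i _ => Finset.sum_nonpos fun j _ => ?_
    by_cases hij : i = j
    · subst hij
      have : max (c i) 0 * max (-c i) 0 = 0 := by
        rcases le_total 0 (c i) with h | h
        · rw [max_eq_right (show -c i ≤ 0 by linarith), mul_zero]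
        · rw [max_eq_right h, zero_mul]
      rw [this, zero_mul]
    · exact mul_nonpos_of_nonneg_of_nonpos (mul_nonneg (le_max_right _ _) (le_max_right _ _))
        (hob i j hij)
  have huV : br G u V = 0 := by
    rw [hG.bcomm, hu, br_sum_right]
    refine Finset.sum_eq_zero fun i _ => ?_
    rw [br_smul_right, hVf, mul_zero]
  have hu0 : u = 0 := by
    by_contra h
    have := hG.pos hV huV h
    linarith
  have hpos : ∀ i, max (c i) 0 = 0 := by
    have h1 : ∑ i, max (c i) 0 * br G O (f i) = 0 := by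
      have h2 : br G O u = ∑ i, max (c i) 0 * br G O (f i) := by
        rw [hu, br_sum_right]
        exact Finset.sum_congr rfl fun i _ => br_smul_right _ _ _ _
      rw [← h2, hu0]
      simp
    have h3 := (Finset.sum_eq_zero_iff_of_nonpos (fun i _ =>
      mul_nonpos_of_nonneg_of_nonpos (le_max_right (c i) 0) (hOf i).le)).1 h1
    intro i
    rcases mul_eq_zero.1 (h3 i (Finset.mem_univ i)) with h | h
    · exact h
    · exact absurd h (hOf i).ne
  have hneg : ∀ i, max (-c i) 0 = 0 := by
    have h1 : ∑ i, max (-c i) 0 * br G O (f i) = 0 := by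
      have h2 : br G O u = ∑ i, max (-c i) 0 * br G O (f i) := by
        rw [hu2, br_sum_right]
        exact Finset.sum_congr rfl fun i _ => br_smul_right _ _ _ _
      rw [← h2, hu0]
      simp
    have h3 := (Finset.sum_eq_zero_iff_of_nonpos (fun i _ =>
      mul_nonpos_of_nonneg_of_nonpos (le_max_right (-c i) 0) (hOf i).le)).1 h1
    intro i
    rcases mul_eq_zero.1 (h3 i (Finset.mem_univ i)) with h | h
    · exact h
    · exact absurd h (hOf i).ne
  have h1 := hpos i0
  have h2 := hneg i0
  have h3 : c i0 ≤ 0 := by rw [← h1]; exact le_max_left _ _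
  have h4 : -c i0 ≤ 0 := by rw [← h2]; exact le_max_left _ _
  exact hi0 (by linarith)

/-! ### determinants -/

theorem d4_upd (a b c x : Z4) :
    d4 a b c x = (Matrix.updateRow (Matrix.of ![a, b, c, 0]) 3 x).det := by
  unfold d4
  congr 1
  ext i j
  fin_cases i <;> simp [Matrix.updateRow_apply]

/-- `d4` as a linear map in the last variable -/
def d4L (a b c : Z4) : Z4 →ₗ[ℤ] ℤ where
  toFun x := d4 a b c x
  map_add' x y := by simp only [d4_upd, Matrix.det_updateRow_add]
  map_smul' k x := by simp only [d4_upd, Matrix.det_updateRow_smul]; rfl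

theorem d4_expand (a b c x : Z4) : d4 a b c x = ∑ i, d4 a b c (Pi.single i 1) * x i := by
  have h1 : x = ∑ i, x i • (Pi.single i 1 : Z4) := by
    funext i
    simp [Finset.sum_apply, Pi.single_apply]
  have h2 : d4L a b c x = ∑ i, x i * d4L a b c (Pi.single i 1) := by
    conv_lhs => rw [h1, map_sum]
    exact Finset.sum_congr rfl fun i _ => by rw [map_smul]; rfl
  have h3 : d4L a b c x = d4 a b c x := rfl
  rw [← h3, h2]
  exact Finset.sum_congr rfl fun i _ => mul_comm _ _

theorem d4_a (a b c : Z4) : d4 a b c a = 0 := by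
  unfold d4
  exact Matrix.det_zero_of_row_eq (i := 0) (j := 3) (by decide) (by ext j; simp)

theorem d4_b (a b c : Z4) : d4 a b c b = 0 := by
  unfold d4
  exact Matrix.det_zero_of_row_eq (i := 1) (j := 3) (by decide) (by ext j; simp)

theorem d4_c (a b c : Z4) : d4 a b c c = 0 := by
  unfold d4
  exact Matrix.det_zero_of_row_eq (i := 2) (j := 3) (by decide) (by ext j; simp)

/-- Gram determinant identity for a vector orthogonal to `a b c`. -/
theorem gram_id {G : M4} (hG : Lat G) {a b c z : Z4} (ha : bz G z a = 0) (hb : bz G z b = 0)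
    (hc : bz G z c = 0) :
    G.det * d4 a b c z ^ 2 = g3 G a b c c * bz G z z := by
  have h1 : (Matrix.of ![a, b, c, z] * G * (Matrix.of ![a, b, c, z]).transpose) =
      Matrix.of ![![bz G a a, bz G a b, bz G a c, 0], ![bz G a b, bz G b b, bz G b c, 0],
        ![bz G a c, bz G b c, bz G c c, 0], ![0, 0, 0, bz G z z]] := by
    have key : ∀ x y : Z4, ∀ i j : Fin 4, (Matrix.of ![a, b, c, z]) i = x →
        (Matrix.of ![a, b, c, z]) j = y →
        (Matrix.of ![a, b, c, z] * G * (Matrix.of ![a, b, c, z]).transpose) i j = bz G x y := by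
      rintro x y i j rfl rfl
      rw [Matrix.mul_assoc, Matrix.mul_apply]
      unfold bz
      refine Finset.sum_congr rfl fun k _ => ?_
      rw [Matrix.mul_apply, Finset.mul_sum]
      refine Finset.sum_congr rfl fun l _ => ?_
      rw [Matrix.transpose_apply]
      ring
    ext i j
    fin_cases i <;> fin_cases j
    all_goals
      first
        | (rw [key a a _ _ rfl rfl]; rfl)
        | (rw [key a b _ _ rfl rfl]; rfl)
        | (rw [key a c _ _ rfl rfl]; rfl)
        | (rw [key b b _ _ rfl rfl]; rfl)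
        | (rw [key b c _ _ rfl rfl]; rfl)
        | (rw [key c c _ _ rfl rfl]; rfl)
        | (rw [key z z _ _ rfl rfl]; rfl)
        | (rw [key b a _ _ rfl rfl, hG.zcomm]; rfl)
        | (rw [key c a _ _ rfl rfl, hG.zcomm]; rfl)
        | (rw [key c b _ _ rfl rfl, hG.zcomm]; rfl)
        | (rw [key z a _ _ rfl rfl, ha]; rfl)
        | (rw [key z b _ _ rfl rfl, hb]; rfl)
        | (rw [key z c _ _ rfl rfl, hc]; rfl)
        | (rw [key a z _ _ rfl rfl, hG.zcomm, ha]; rfl)
        | (rw [key b z _ _ rfl rfl, hG.zcomm, hb]; rfl)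
        | (rw [key c z _ _ rfl rfl, hG.zcomm, hc]; rfl)
  have h2 := congrArg Matrix.det h1
  rw [Matrix.det_mul, Matrix.det_mul, Matrix.det_transpose] at h2
  have h3 : (Matrix.of ![![bz G a a, bz G a b, bz G a c, 0], ![bz G a b, bz G b b, bz G b c, 0],
        ![bz G a c, bz G b c, bz G c c, 0], ![0, 0, 0, bz G z z]]).det =
      g3 G a b c c * bz G z z := by
    rw [Matrix.det_succ_row _ (3 : Fin 4)]
    simp only [g3, Matrix.det_fin_three, Fin.sum_univ_succ, Matrix.submatrix, Matrix.of_apply]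
    simp [Fin.succAbove]
    ring
  rw [h3] at h2
  unfold d4
  rw [← h2]
  ring

/-- the vertex vector of three vectors -/
def vv (G : M4) (a b c : Z4) : Z4 := G.adjugate.mulVec fun i => d4 a b c (Pi.single i 1)

theorem bz_vv {G : M4} (hG : Lat G) (a b c x : Z4) :
    bz G (vv G a b c) x = G.det * d4 a b c x := by
  rw [hG.zcomm, bz_eq_dot, vv, Matrix.mulVec_mulVec, Matrix.mul_adjugate, d4_expand a b c x,
    Matrix.smul_mulVec, Matrix.one_mulVec]
  simp only [dotProduct, Pi.smul_apply, smul_eq_mul]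
  rw [Finset.mul_sum]
  exact Finset.sum_congr rfl fun i _ => by ring

theorem exists_orth {G : M4} (a b c : Z4) (hG : Lat G) :
    ∃ z : Z4, z ≠ 0 ∧ bz G z a = 0 ∧ bz G z b = 0 ∧ bz G z c = 0 := by
  have hdet : (Matrix.of ![G.mulVec a, G.mulVec b, G.mulVec c, 0]).det = 0 :=
    Matrix.det_eq_zero_of_row_eq_zero 3 (fun j => by simp)
  obtain ⟨z, hz, hz'⟩ := Matrix.exists_mulVec_eq_zero_iff.2 hdet
  refine ⟨z, hz, ?_, ?_, ?_⟩
  · rw [bz_eq_dot, dotProduct_comm]
    exact congrFun hz' 0
  · rw [bz_eq_dot, dotProduct_comm]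
    exact congrFun hz' 1
  · rw [bz_eq_dot, dotProduct_comm]
    exact congrFun hz' 2

theorem vv_neg {G : M4} (hG : Lat G) {a b c : Z4} (h3 : 0 < g3 G a b c c) :
    bz G (vv G a b c) (vv G a b c) < 0 := by
  have hdet := hG.det_neg
  obtain ⟨z, hz, hza, hzb, hzc⟩ := exists_orth a b c hG
  have h1 := gram_id hG hza hzb hzc
  have hQz : bz G z z ≠ 0 := fun h => hz (hG.anis z h)
  have hd : d4 a b c z ≠ 0 := by
    intro h
    rw [h] at h1
    have : g3 G a b c c * bz G z z = 0 := by rw [← h1]; ring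
    rcases mul_eq_zero.1 this with h | h
    · omega
    · exact hQz h
  have hv : vv G a b c ≠ 0 := by
    intro h
    have h2 := bz_vv hG a b c z
    rw [h, bz_zero_left] at h2
    rcases mul_eq_zero.1 h2.symm with h | h
    · omega
    · exact hd h
  have hQ : bz G (vv G a b c) (vv G a b c) ≠ 0 := fun h => hv (hG.anis _ h)
  have h4 := gram_id hG (z := vv G a b c) (by rw [bz_vv hG, d4_a, mul_zero])
    (by rw [bz_vv hG, d4_b, mul_zero]) (by rw [bz_vv hG, d4_c, mul_zero])
  by_contra hcon
  have h5 : 0 < bz G (vv G a b c) (vv G a b c) := by omega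
  have h6 : 0 < g3 G a b c c * bz G (vv G a b c) (vv G a b c) := mul_pos h3 h5
  have h7 : G.det * d4 a b c (vv G a b c) ^ 2 ≤ 0 :=
    mul_nonpos_of_nonpos_of_nonneg hdet.le (sq_nonneg _)
  omega

/-- an integer vector orthogonal to `a b` and to the vertex vector and to the component of `c`
vanishes -/
theorem eq_zero_of_orth {G : M4} (hG : Lat G) {a b c z : Z4} (h3 : 0 < g3 G a b c c)
    (ha : bz G z a = 0) (hb : bz G z b = 0) (hc : bz G z c = 0) (hd : d4 a b c z = 0) :
    z = 0 := by
  have h1 := gram_id hG ha hb hc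
  rw [hd] at h1
  have : g3 G a b c c * bz G z z = 0 := by rw [← h1]; ring
  rcases mul_eq_zero.1 this with h | h
  · omega
  · exact hG.anis z h

theorem root_eq_of_par {G : M4} {a r : Z4} (ha : IsRoot G a) (hr : IsRoot G r) {D α : ℤ}
    (hD : 0 < D) (hα : 0 < α) (h : D • r = α • a) : r = a := by
  have h1 : ∀ i, D * r i = α * a i := fun i => congrFun h i
  have h2 : D ∣ α := prim_dvd ha.prim fun i => ⟨r i, (h1 i).symm⟩
  have h3 : α ∣ D := prim_dvd hr.prim fun i => ⟨a i, h1 i⟩
  have h4 : D = α := Int.dvd_antisymm hD.le hα.le h2 h3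
  funext i
  have := h1 i
  rw [h4] at this
  exact mul_left_cancel₀ hα.ne' this

/-! ### local finiteness -/

theorem root_bdd {G : M4} (hG : Lat G) (hdvd : RootDvdStmt) {r : Z4} (hr : IsRoot G r) :
    bz G r r ≤ 2 * |G.det| := by
  have h1 := hdvd G hG r hr
  have h2 : 2 * G.det ≠ 0 := by
    have := hG.det_ne
    omega
  have h3 : bz G r r ∣ 2 * |G.det| := by
    rcases abs_choice G.det with h | h
    · rw [h]; exact h1
    · rw [h, mul_neg, dvd_neg]; exact h1
  exact Int.le_of_dvd (by have := abs_pos.2 hG.det_ne; omega) h3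

theorem br_le_norm (G : M4) : ∃ K : ℝ, 0 < K ∧ ∀ (x y : R4) (δ ρ : ℝ), 0 ≤ δ → 0 ≤ ρ →
    (∀ i, |x i| ≤ δ) → (∀ i, |y i| ≤ ρ) → |br G x y| ≤ K * δ * ρ := by
  refine ⟨∑ i, ∑ j, |(G i j : ℝ)| + 1, by positivity, fun x y δ ρ hδ hρ hx hy => ?_⟩
  have h1 : |br G x y| ≤ ∑ i, ∑ j, |(G i j : ℝ)| * (δ * ρ) := by
    unfold br
    refine (Finset.abs_sum_le_sum_abs _ _).trans (Finset.sum_le_sum fun i _ => ?_)
    refine (Finset.abs_sum_le_sum_abs _ _).trans (Finset.sum_le_sum fun j _ => ?_)
    rw [abs_mul, abs_mul]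
    have h2 := mul_le_mul (hx i) (hy j) (abs_nonneg _) hδ
    calc |x i| * |(G i j : ℝ)| * |y j| = |(G i j : ℝ)| * (|x i| * |y j|) := by ring
      _ ≤ |(G i j : ℝ)| * (δ * ρ) := mul_le_mul_of_nonneg_left h2 (abs_nonneg _)
  have h2 : ∑ i, ∑ j, |(G i j : ℝ)| * (δ * ρ) = (∑ i, ∑ j, |(G i j : ℝ)|) * (δ * ρ) := by
    rw [Finset.sum_mul]
    exact Finset.sum_congr rfl fun i _ => (Finset.sum_mul _ _ _).symm
  rw [h2] at h1
  have h3 : 0 ≤ δ * ρ := mul_nonneg hδ hρ
  nlinarith

/-- near a negative vector `V` the roots which do not vanish at `V` keep their sign. -/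
theorem stab {G : M4} (hG : Lat G) (hdvd : RootDvdStmt) (hfin : FinVecStmt) {V : R4}
    (hV : br G V V < 0) : ∃ δ : ℝ, 0 < δ ∧ ∀ x : R4, (∀ i, |x i - V i| ≤ δ) →
      ∀ r : Z4, IsRoot G r → br G V (up r) < 0 → br G x (up r) < 0 := by
  classical
  set C : ℝ := max (2 * |(G.det : ℝ)|) 1 with hC
  have hC1 : 1 ≤ C := le_max_right _ _
  have hrC : ∀ r : Z4, IsRoot G r → (bz G r r : ℝ) ≤ C := by
    intro r hr
    have h1 := root_bdd hG hdvd hr
    have h2 : (bz G r r : ℝ) ≤ 2 * |(G.det : ℝ)| := by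
      have : ((bz G r r : ℤ) : ℝ) ≤ ((2 * |G.det| : ℤ) : ℝ) := by exact_mod_cast h1
      simpa using this
    exact h2.trans (le_max_left _ _)
  have hS := hfin G hG V hV C
  -- lower bound m
  obtain ⟨m, hm0, hm1, hm⟩ : ∃ m : ℝ, 0 < m ∧ m ≤ 1 ∧ ∀ r : Z4, IsRoot G r →
      br G V (up r) ≠ 0 → m ≤ |br G V (up r)| := by
    set T : Finset Z4 := hS.toFinset.filter (fun r => br G V (up r) ≠ 0) with hT
    by_cases hTe : T.Nonempty
    · obtain ⟨r0, hr0, hmin⟩ := T.exists_min_image (fun r => |br G V (up r)|) hTe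
      have h0 : br G V (up r0) ≠ 0 := (Finset.mem_filter.1 hr0).2
      refine ⟨min |br G V (up r0)| 1, lt_min (abs_pos.2 h0) one_pos, min_le_right _ _,
        fun r hr hr' => ?_⟩
      by_cases hb : |br G V (up r)| ≤ C
      · have hrT : r ∈ T := by
          rw [hT, Finset.mem_filter, Set.Finite.mem_toFinset]
          exact ⟨⟨hrC r hr, hb⟩, hr'⟩
        exact (min_le_left _ _).trans (hmin r hrT)
      · push Not at hb
        exact (min_le_right _ _).trans (hC1.trans hb.le)
    · refine ⟨1, one_pos, le_rfl, fun r hr hr' => ?_⟩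
      by_cases hb : |br G V (up r)| ≤ C
      · exfalso
        apply hTe
        refine ⟨r, ?_⟩
        rw [hT, Finset.mem_filter, Set.Finite.mem_toFinset]
        exact ⟨⟨hrC r hr, hb⟩, hr'⟩
      · push Not at hb
        exact hC1.trans hb.le
  obtain ⟨c, hc, hmaj⟩ := hG.maj_lower hV
  obtain ⟨K, hK, hbr⟩ := br_le_norm G
  have hQ : 0 < -br G V V := by linarith
  -- bound of a root
  set A : ℝ := (C + 2 / (-br G V V)) / c + 1 with hA
  have hA0 : 0 < A := by positivity
  have hroot : ∀ r : Z4, IsRoot G r → ∀ i, |up r i| ≤ A * (1 + |br G V (up r)|) := by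
    intro r hr i
    set t := |br G V (up r)| with ht
    have ht0 : 0 ≤ t := abs_nonneg _
    have h1 := hmaj (up r)
    have h2 : (up r i) ^ 2 ≤ ∑ j, (up r j) ^ 2 :=
      Finset.single_le_sum (f := fun j => (up r j) ^ 2) (fun j _ => sq_nonneg _)
        (Finset.mem_univ i)
    have h3 : maj G V (up r) ≤ C + 2 / (-br G V V) * t ^ 2 := by
      unfold maj
      rw [br_up, ht, sq_abs, hG.bcomm (up r) V]
      have h4 := hrC r hr
      have h5 : 2 * br G V (up r) ^ 2 / -br G V V = 2 / (-br G V V) * br G V (up r) ^ 2 := by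
        ring
      rw [h5]
      linarith
    have h4 : c * (up r i) ^ 2 ≤ C + 2 / (-br G V V) * t ^ 2 :=
      (mul_le_mul_of_nonneg_left h2 hc.le).trans (h1.trans h3)
    have h5 : (0 : ℝ) < 2 / (-br G V V) := by positivity
    have h6 : C + 2 / (-br G V V) * t ^ 2 ≤ (C + 2 / (-br G V V)) * (1 + t) ^ 2 := by
      nlinarith [mul_nonneg (by linarith : (0 : ℝ) ≤ C) ht0, mul_nonneg h5.le ht0,
        mul_nonneg (by linarith : (0 : ℝ) ≤ C) (sq_nonneg t)]
    have h7 : (up r i) ^ 2 ≤ (C + 2 / (-br G V V)) / c * (1 + t) ^ 2 := by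
      rw [div_mul_eq_mul_div, le_div_iff₀ hc]
      linarith
    have h8 : (C + 2 / (-br G V V)) / c ≤ A ^ 2 := by
      have h9 : 0 ≤ (C + 2 / (-br G V V)) / c := by positivity
      nlinarith
    apply abs_le_of_sq_le_sq _ (by positivity)
    calc (up r i) ^ 2 ≤ (C + 2 / (-br G V V)) / c * (1 + t) ^ 2 := h7
      _ ≤ A ^ 2 * (1 + t) ^ 2 := mul_le_mul_of_nonneg_right h8 (sq_nonneg _)
      _ = (A * (1 + t)) ^ 2 := by ring
  set δ : ℝ := m / (4 * K * A) with hδ
  have hδ0 : 0 < δ := by positivity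
  refine ⟨δ, hδ0, fun x hx r hr hneg => ?_⟩
  set t := |br G V (up r)| with ht
  have ht0 : 0 ≤ t := abs_nonneg _
  have htm : m ≤ t := hm r hr hneg.ne
  have h1 : |br G (x - V) (up r)| ≤ K * δ * (A * (1 + t)) :=
    hbr (x - V) (up r) δ (A * (1 + t)) hδ0.le (by positivity) (fun i => hx i) (hroot r hr)
  have h2 : K * δ * (A * (1 + t)) = m * (1 + t) / 4 := by
    rw [hδ]
    field_simp
  have h3 : m * (1 + t) ≤ 2 * t := by nlinarith
  have h4 : br G x (up r) = br G V (up r) + br G (x - V) (up r) := by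
    rw [br_sub_left]; ring
  have h5 : br G V (up r) = -t := by rw [ht, abs_of_neg hneg]; ring
  have h6 := (le_abs_self (br G (x - V) (up r))).trans h1
  rw [h2] at h6
  rw [h4, h5]
  have h7 : 0 < t := lt_of_lt_of_le hm0 htm
  linarith

end Pool.Agent.Refl.H18
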