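import Pool.Agent.Helper18_Refl.KBase

/-!
# TREE
-/

namespace Pool.Agent.Refl.H18

open Matrix

theorem tree (sp : SplitStmt) (kA : KillAStmt) (kB : KillBStmt) (kC : KillCStmt) (fn : FinStmt)
    (pr : PrimeStmt) : TreeStmt := by
  intro c D0 P F G a b nd e n0 n1 n2 n3 D cl ex tb tn cb cn fuel s FR FF he hn
  induction fuel generalizing n0 n1 n2 n3 D cl ex s with
  | zero => exact fun h => absurd rfl h
  | succ fuel ih =>
    intro h
    have hA := kA c D0 P F G a b nd e n0 n1 n2 n3 D cl ex (Nat.div s 16) he hn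
    have hB := kB c D0 P F G a b nd e n0 n1 n2 n3 D cl ex (Nat.div s 16) he hn
    have hC := kC c D0 P F G a b nd e n0 n1 n2 n3 D cl ex (Nat.div s 16) he hn
    have hF := fun o => fn c D0 P F G a b nd e n0 n1 n2 n3 D cl ex tb tn cb cn o (Nat.div s 16)
      FR FF he hn
    have h' : K.fc (Nat.div s 16) (fun s' => Nat.rec
        (K.fc (Nat.mod s' 4096) fun p => K.fc (Nat.mod (Nat.div s' 4096) 16) fun m =>
          K.fc (Nat.div s' 65536) fun s =>
          K.fc (Nat.div D p) fun D' =>
          Bool.rec 0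
            (K.spl m
              (fun a b d e => K.sp1 c p a b d e s ex
                (fun a b d e s ex => K.tree c tb tn cb cn FR FF fuel a b d e D' cl ex s)
                (fun a b d e s => K.tree c tb tn cb cn FR FF fuel a b d e D (Nat.mul cl p) List.nil s))
              (fun a b d e => K.sp2 c p a b d e s ex
                (fun a b d e s ex => K.tree c tb tn cb cn FR FF fuel a b d e D' cl ex s)
                (fun a b d e s => K.tree c tb tn cb cn FR FF fuel a b d e D (Nat.mul cl p) List.nil s))
              (fun a b d e => K.sp3 c p a b d e s ex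
                (fun a b d e s ex => K.tree c tb tn cb cn FR FF fuel a b d e D' cl ex s)
                (fun a b d e s => K.tree c tb tn cb cn FR FF fuel a b d e D (Nat.mul cl p) List.nil s))
              (K.sp4 c p n0 n1 n2 n3 s ex
                (fun a b d e s ex => K.tree c tb tn cb cn FR FF fuel a b d e D' cl ex s)
                (fun a b d e s => K.tree c tb tn cb cn FR FF fuel a b d e D (Nat.mul cl p) List.nil s))
              n0 n1 n2 n3)
            (K.ands (K.isPrime p) (Nat.beq (Nat.mod c.Q p) 0)))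
        (fun o _ => Nat.rec (K.kPrim c n0 n1 n2 n3 s')
        (fun o _ => Nat.rec (K.kExcl c n0 n1 n2 n3 ex s')
        (fun o _ => Nat.rec (K.kSSF c n0 n1 n2 n3 D cl s')
        (fun o _ => Nat.rec (K.kRank c n0 n1 n2 n3 D cl s')
        (fun o _ => Nat.rec (K.kDer c n0 n1 n2 n3 D cl s')
        (fun o _ => Nat.rec (K.kRank11 c n0 n1 n2 n3 D cl s')
        (fun o _ => K.fin c tb tn cb cn FR FF n0 n1 n2 n3 D cl o s')
        o) o) o) o) o) o) (Nat.mod s 16)) ≠ 0 := h
    rw [fc_eq] at h'
    generalize Nat.mod s 16 = o at h'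
    generalize Nat.div s 16 = s' at h' hA hB hC hF
    match o, h' with
    | 0, h' =>
      rw [show (0 : ℕ) = Nat.zero from rfl] at h'
      simp only [fc_eq] at h'
      obtain ⟨h1, h2⟩ := boolrec_ne h'
      rw [ands_true, beq_true] at h1
      obtain ⟨hp1, hp2⟩ := pr _ h1.1
      exact sp c D0 F n0 n1 n2 n3 D cl ex (Out c F G tb tn cb cn FR FF)
        (K.tree c tb tn cb cn FR FF fuel) (Nat.mod s' 4096) (Nat.mod (Nat.div s' 4096) 16)
        (Nat.div s' 65536) he.ctx.toCtxB hn hp1 hp2 (Nat.dvd_of_mod_eq_zero h1.2)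
        (fun a b d e D' cl' ex' s' hn' hne => ih a b d e D' cl' ex' s' hn' hne) h2
    | 1, h' => exact absurd hA.1 h'
    | 2, h' => exact absurd hA.2.1 h'
    | 3, h' => exact absurd hA.2.2 h'
    | 4, h' => exact absurd hB.1 h'
    | 5, h' => exact absurd hC h'
    | 6, h' => exact absurd hB.2 h'
    | o + 7, h' => exact hF o h'

end Pool.Agent.Refl.H18
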